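import Mathlib

open Set Filter Topology Matrix
open scoped ENNReal Real NNReal

noncomputable section
namespace Pool.Agent.V1179.Spec

theorem norm_pow_tendsto {E : Type*} [NormedRing E] [NormedAlgebra ℂ E] [CompleteSpace E]
    [Nontrivial E] (a : E) (h : ∀ z ∈ spectrum ℂ a, ‖z‖ < 1) :
    Tendsto (fun n : ℕ => ‖a ^ n‖) atTop (𝓝 0) := by
  have h1 : spectralRadius ℂ a < ((1 : ℝ≥0) : ℝ≥0∞) := by
    apply spectrum.spectralRadius_lt_of_forall_lt
    intro k hk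
    have := h k hk
    rw [← NNReal.coe_lt_coe]
    simpa using this
  obtain ⟨r, hr1, hr2⟩ := exists_between h1
  have hrtop : r ≠ ⊤ := ne_top_of_lt hr2
  have ht := spectrum.pow_nnnorm_pow_one_div_tendsto_nhds_spectralRadius a
  have hev : ∀ᶠ n : ℕ in atTop, ‖a ^ n‖ ≤ (r.toReal) ^ n := by
    filter_upwards [ht.eventually (gt_mem_nhds hr1), eventually_gt_atTop 0] with n hn hn0
    have hn1 : (0 : ℝ) < n := by exact_mod_cast hn0
    have h2 : (‖a ^ n‖₊ : ℝ≥0∞) ≤ r ^ n := by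
      have h3 := ENNReal.rpow_le_rpow hn.le hn1.le
      rw [← ENNReal.rpow_mul] at h3
      rw [one_div, inv_mul_cancel₀ hn1.ne', ENNReal.rpow_one, ENNReal.rpow_natCast] at h3
      exact h3
    have h4 := ENNReal.toReal_mono (ENNReal.pow_ne_top hrtop) h2
    rw [ENNReal.toReal_pow] at h4
    simpa using h4
  have hr3 : r.toReal < 1 := by
    have := (ENNReal.toReal_lt_toReal hrtop (by norm_num)).2 hr2
    simpa using this
  refine squeeze_zero' (Eventually.of_forall fun n => norm_nonneg _) hev ?_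
  exact tendsto_pow_atTop_nhds_zero_of_lt_one ENNReal.toReal_nonneg hr3

attribute [local instance] Matrix.linftyOpNormedRing Matrix.linftyOpNormedAlgebra

variable {d : ℕ}

theorem det_ne (R : Matrix (Fin d) (Fin d) ℤ)
    (hR : ∀ z : ℂ, (R.map (Int.castRingHom ℂ)).charpoly.IsRoot z → 1 < ‖z‖) :
    R.det ≠ 0 := by
  intro h0
  have h1 : ¬ IsUnit (R.map (Int.castRingHom ℂ)) := by
    rw [Matrix.isUnit_iff_isUnit_det]
    have : (R.map (Int.castRingHom ℂ)).det = 0 := by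
      have h2 := (RingHom.map_det (Int.castRingHom ℂ) R)
      rw [h0, map_zero] at h2
      exact h2.symm
    rw [this]
    simp
  have h2 : (0 : ℂ) ∈ spectrum ℂ (R.map (Int.castRingHom ℂ)) := by
    rw [spectrum.zero_mem_iff]
    exact h1
  rw [Matrix.mem_spectrum_iff_isRoot_charpoly] at h2
  have := hR 0 h2
  norm_num at this

theorem entries_tendsto (hd : 0 < d) (R : Matrix (Fin d) (Fin d) ℤ)
    (hR : ∀ z : ℂ, (R.map (Int.castRingHom ℂ)).charpoly.IsRoot z → 1 < ‖z‖) (i j : Fin d) :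
    Tendsto (fun n : ℕ => (((R.map (Int.castRingHom ℝ))⁻¹) ^ n) i j) atTop (𝓝 0) := by
  haveI : Nonempty (Fin d) := ⟨⟨0, hd⟩⟩
  set M := R.map (Int.castRingHom ℝ) with hM
  set Mc := R.map (Int.castRingHom ℂ) with hMc
  have hdet : R.det ≠ 0 := det_ne R hR
  have hMdet : IsUnit M.det := by
    have h2 := (RingHom.map_det (Int.castRingHom ℝ) R)
    have h3 : M.det = ((R.det : ℤ) : ℝ) := h2.symm
    rw [h3, isUnit_iff_ne_zero]
    exact_mod_cast hdet
  have hMcdet : IsUnit Mc.det := by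
    have h2 := (RingHom.map_det (Int.castRingHom ℂ) R)
    have h3 : Mc.det = ((R.det : ℤ) : ℂ) := h2.symm
    rw [h3, isUnit_iff_ne_zero]
    exact_mod_cast hdet
  have hMu : IsUnit M := (Matrix.isUnit_iff_isUnit_det M).2 hMdet
  have hMcu : IsUnit Mc := (Matrix.isUnit_iff_isUnit_det Mc).2 hMcdet
  have hmul : M * M⁻¹ = 1 := Matrix.mul_nonsing_inv M hMdet
  have hmap : (M⁻¹).map (Complex.ofRealHom) = Mc⁻¹ := by
    symm
    apply Matrix.inv_eq_right_inv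
    have h1 : M.map (Complex.ofRealHom) = Mc := by
      ext a b
      simp [hM, hMc]
    rw [← h1, ← Matrix.map_mul, hmul]
    exact Matrix.map_one _ (map_zero _) (map_one _)
  have hspec : ∀ z ∈ spectrum ℂ (Mc⁻¹), ‖z‖ < 1 := by
    intro z hz
    obtain ⟨u, hu⟩ := hMcu
    have h1 : Mc⁻¹ = ((u⁻¹ : (Matrix (Fin d) (Fin d) ℂ)ˣ) : Matrix (Fin d) (Fin d) ℂ) := by
      rw [← hu, Matrix.coe_units_inv]
    rw [h1, ← spectrum.map_inv, hu] at hz
    rw [Set.mem_inv] at hz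
    rw [Matrix.mem_spectrum_iff_isRoot_charpoly] at hz
    have h2 := hR _ hz
    rw [norm_inv] at h2
    by_contra hcon
    push Not at hcon
    have h3 : ‖z‖⁻¹ ≤ 1 := inv_le_one_of_one_le₀ hcon
    linarith
  have ht := norm_pow_tendsto (Mc⁻¹) hspec
  have hle : ∀ n : ℕ, ‖((M⁻¹) ^ n) i j‖ ≤ ‖(Mc⁻¹) ^ n‖ := by
    intro n
    have h1 : ((Mc⁻¹) ^ n) = ((M⁻¹) ^ n).map (Complex.ofRealHom) := by
      rw [← hmap]
      have := map_pow (Complex.ofRealHom.mapMatrix (m := Fin d)) (M⁻¹) n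
      exact this.symm
    have h2 : ‖((M⁻¹) ^ n) i j‖ = ‖((Mc⁻¹) ^ n) i j‖ := by
      rw [h1]
      simp
    rw [h2]
    have h3 : ‖((Mc⁻¹) ^ n) i j‖₊ ≤ ‖(Mc⁻¹) ^ n‖₊ := by
      rw [Matrix.linfty_opNNNorm_def]
      calc ‖((Mc⁻¹) ^ n) i j‖₊ ≤ ∑ j, ‖((Mc⁻¹) ^ n) i j‖₊ :=
            Finset.single_le_sum (f := fun j => ‖((Mc⁻¹) ^ n) i j‖₊) (fun _ _ => bot_le) (Finset.mem_univ j)
        _ ≤ _ := Finset.le_sup (f := fun i => ∑ j, ‖((Mc⁻¹) ^ n) i j‖₊) (Finset.mem_univ i)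
    exact_mod_cast h3
  exact squeeze_zero_norm hle ht

theorem contr (hd : 0 < d) (R : Matrix (Fin d) (Fin d) ℤ)
    (hR : ∀ z : ℂ, (R.map (Int.castRingHom ℂ)).charpoly.IsRoot z → 1 < ‖z‖) :
    ∃ c : ℕ → ℝ, (∀ n, 0 ≤ c n) ∧ Tendsto c atTop (𝓝 0) ∧ ∀ (n : ℕ) (x : Fin d → ℝ),
      ‖(((R.map (Int.castRingHom ℝ))⁻¹) ^ n) *ᵥ x‖ ≤ c n * ‖x‖ := by
  set A := (R.map (Int.castRingHom ℝ))⁻¹ with hA
  refine ⟨fun n => ∑ i, ∑ j, |(A ^ n) i j|, fun n => by positivity, ?_, ?_⟩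
  · have : (0 : ℝ) = ∑ i : Fin d, ∑ j : Fin d, |(0 : ℝ)| := by simp
    rw [this]
    refine tendsto_finsetSum _ fun i _ => tendsto_finsetSum _ fun j _ => ?_
    exact (entries_tendsto hd R hR i j).abs
  · intro n x
    have hcn : 0 ≤ ∑ i, ∑ j, |(A ^ n) i j| := by positivity
    rw [pi_norm_le_iff_of_nonneg (by positivity)]
    intro i
    calc ‖((A ^ n) *ᵥ x) i‖ = |∑ j, (A ^ n) i j * x j| := rfl
      _ ≤ ∑ j, |(A ^ n) i j * x j| := Finset.abs_sum_le_sum_abs _ _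
      _ ≤ ∑ j, |(A ^ n) i j| * ‖x‖ := by
          refine Finset.sum_le_sum fun j _ => ?_
          rw [abs_mul]
          gcongr
          exact norm_le_pi_norm x j
      _ = (∑ j, |(A ^ n) i j|) * ‖x‖ := by rw [Finset.sum_mul]
      _ ≤ (∑ i, ∑ j, |(A ^ n) i j|) * ‖x‖ := by
          refine mul_le_mul_of_nonneg_right ?_ (norm_nonneg _)
          exact Finset.single_le_sum (f := fun i => ∑ j, |(A ^ n) i j|)
            (fun _ _ => by positivity) (Finset.mem_univ i)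

end Pool.Agent.V1179.Spec
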