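import Pool.Agent.V1179.Spec.Attr

open MeasureTheory Set Matrix
open scoped ENNReal Real

noncomputable section
namespace Pool.Agent.V1179.Spec

lemma root_R : ∀ z : ℂ, (R.map (Int.cast : ℤ → ℂ)).charpoly.IsRoot z → 1 < ‖z‖ := by
  intro z hz
  have h1 : (R.map (Int.cast : ℤ → ℂ)) = !![4, 0; 0, 3] := by
    ext i j
    fin_cases i <;> fin_cases j <;> simp [R]
  rw [h1, Polynomial.IsRoot.def, Matrix.eval_charpoly] at hz
  rw [Matrix.det_fin_two] at hz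
  simp at hz
  rcases hz with hz | hz
  · have : z = 4 := sub_eq_zero.1 hz
    rw [this]
    norm_num
  · have : z = 3 := sub_eq_zero.1 hz
    rw [this]
    norm_num

lemma cl_B : AddSubgroup.closure {v : Fin 2 → ℤ | ∃ k : ℕ, ∃ b ∈ B, v = (R ^ k) *ᵥ b} = ⊤ := by
  set S := AddSubgroup.closure {v : Fin 2 → ℤ | ∃ k : ℕ, ∃ b ∈ B,
    v = (R ^ k) *ᵥ b} with hS
  have h1 : (![1, 0] : Fin 2 → ℤ) ∈ S := by
    apply AddSubgroup.subset_closure
    refine ⟨0, ![1, 0], by simp [B], by simp⟩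
  have h2 : (![8, 1] : Fin 2 → ℤ) ∈ S := by
    apply AddSubgroup.subset_closure
    refine ⟨0, ![8, 1], by simp [B], by simp⟩
  rw [eq_top_iff]
  intro v _
  have hv : v = (v 0 - 8 * v 1) • (![1, 0] : Fin 2 → ℤ) + (v 1) • (![8, 1] : Fin 2 → ℤ) := by
    ext i
    fin_cases i
    · simp
      ring
    · simp
  rw [hv]
  exact S.add_mem (S.zsmul_mem h1 _) (S.zsmul_mem h2 _)

lemma orth_Λ : ∀ l ∈ Λ, ∀ l' ∈ Λ,
    (l = l' → ∫ x, Complex.exp (2 * π * Complex.I * ((∑ i, (l i - l' i) * x i : ℝ) : ℂ)) ∂μ = 1) ∧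
    (l ≠ l' → ∫ x, Complex.exp (2 * π * Complex.I * ((∑ i, (l i - l' i) * x i : ℝ) : ℂ)) ∂μ = 0) := by
  intro l hl l' hl'
  constructor
  · rintro rfl
    simp
  · intro hne
    have key : ∀ t : ℝ, (∀ x : Fin 2 → ℝ, ∑ i, (l i - l' i) * x i = t * x 0) →
        ((∃ n : ℤ, n ≠ 0 ∧ t = n) ∨ (∃ n : ℤ, t = n + 1 / 4 ∨ t = n - 1 / 4)) →
        ∫ x, Complex.exp (2 * π * Complex.I * ((∑ i, (l i - l' i) * x i : ℝ) : ℂ)) ∂μ = 0 := by
      intro t ht h
      simp_rw [ht]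
      rcases h with ⟨n, hn, rfl⟩ | h
      · exact orth_int n hn
      · exact orth_quarter t h
    obtain ⟨n, hn⟩ := hl
    obtain ⟨m, hm⟩ := hl'
    rcases hn with rfl | rfl <;> rcases hm with rfl | rfl
    · refine key (n - m) (fun x => by simp [Fin.sum_univ_two]) (Or.inl ⟨n - m, ?_, by push_cast; ring⟩)
      intro h0
      apply hne
      rw [sub_eq_zero.1 h0]
    · refine key (n - m - 1 / 4) (fun x => by simp [Fin.sum_univ_two]; left; ring)
        (Or.inr ⟨n - m, Or.inr (by push_cast; ring)⟩)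
    · refine key (n - m + 1 / 4) (fun x => by simp [Fin.sum_univ_two]; left; ring)
        (Or.inr ⟨n - m, Or.inl (by push_cast; ring)⟩)
    · refine key (n - m) (fun x => by simp [Fin.sum_univ_two]) (Or.inl ⟨n - m, ?_, by push_cast; ring⟩)
      intro h0
      apply hne
      rw [sub_eq_zero.1 h0]

lemma noL (L : Finset (Fin 2 → ℤ)) (hcard : L.card = 4)
    (hL : ∀ l ∈ L, ∀ l' ∈ L, l ≠ l' → ∑ b ∈ B, Complex.exp (2 * π * Complex.I *
      ((∑ i, ((R.map (Int.cast : ℤ → ℝ))⁻¹ *ᵥ (fun j => (b j : ℝ))) i *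
        ((l i : ℝ) - (l' i : ℝ)) : ℝ) : ℂ)) = 0) : False := by
  -- the sum for a difference
  have hprod : ∀ l l' : Fin 2 → ℤ, ∑ b ∈ B, Complex.exp (2 * π * Complex.I *
      ((∑ i, ((R.map (Int.cast : ℤ → ℝ))⁻¹ *ᵥ (fun j => (b j : ℝ))) i *
        ((l i : ℝ) - (l' i : ℝ)) : ℝ) : ℂ)) =
      (1 + Complex.exp (2 * π * Complex.I * ((l 0 - l' 0 : ℤ) / 4))) *
      (1 + Complex.exp (2 * π * Complex.I * ((l 1 - l' 1 : ℤ) / 3))) := by
    intro l l'
    rw [B, Finset.sum_insert (by decide), Finset.sum_insert (by decide),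
      Finset.sum_insert (by decide), Finset.sum_singleton]
    simp only [invR, Fin.sum_univ_two, Matrix.cons_val_zero, Matrix.cons_val_one]
    have e8 : Complex.exp (2 * π * Complex.I * ((((8 : ℤ) : ℝ) / 4 * ((l 0 : ℝ) - (l' 0 : ℝ)) +
        ((1 : ℤ) : ℝ) / 3 * ((l 1 : ℝ) - (l' 1 : ℝ)) : ℝ) : ℂ))
        = Complex.exp (2 * π * Complex.I * ((l 1 - l' 1 : ℤ) / 3)) := by
      have : 2 * π * Complex.I * ((((8 : ℤ) : ℝ) / 4 * ((l 0 : ℝ) - (l' 0 : ℝ)) +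
        ((1 : ℤ) : ℝ) / 3 * ((l 1 : ℝ) - (l' 1 : ℝ)) : ℝ) : ℂ)
        = 2 * π * Complex.I * ((l 1 - l' 1 : ℤ) / 3) + ((2 * (l 0 - l' 0) : ℤ) : ℂ) *
          (2 * π * Complex.I) := by
        push_cast
        ring
      rw [this, Complex.exp_add, Complex.exp_int_mul_two_pi_mul_I, mul_one]
    have e9 : Complex.exp (2 * π * Complex.I * ((((9 : ℤ) : ℝ) / 4 * ((l 0 : ℝ) - (l' 0 : ℝ)) +
        ((1 : ℤ) : ℝ) / 3 * ((l 1 : ℝ) - (l' 1 : ℝ)) : ℝ) : ℂ))
        = Complex.exp (2 * π * Complex.I * ((l 0 - l' 0 : ℤ) / 4)) *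
          Complex.exp (2 * π * Complex.I * ((l 1 - l' 1 : ℤ) / 3)) := by
      have : 2 * π * Complex.I * ((((9 : ℤ) : ℝ) / 4 * ((l 0 : ℝ) - (l' 0 : ℝ)) +
        ((1 : ℤ) : ℝ) / 3 * ((l 1 : ℝ) - (l' 1 : ℝ)) : ℝ) : ℂ)
        = 2 * π * Complex.I * ((l 0 - l' 0 : ℤ) / 4) + 2 * π * Complex.I * ((l 1 - l' 1 : ℤ) / 3)
          + ((2 * (l 0 - l' 0) : ℤ) : ℂ) * (2 * π * Complex.I) := by
        push_cast
        ring
      rw [this, Complex.exp_add, Complex.exp_int_mul_two_pi_mul_I, mul_one, Complex.exp_add]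
    have e1 : Complex.exp (2 * π * Complex.I * ((((1 : ℤ) : ℝ) / 4 * ((l 0 : ℝ) - (l' 0 : ℝ)) +
        ((0 : ℤ) : ℝ) / 3 * ((l 1 : ℝ) - (l' 1 : ℝ)) : ℝ) : ℂ))
        = Complex.exp (2 * π * Complex.I * ((l 0 - l' 0 : ℤ) / 4)) := by
      congr 1
      push_cast
      ring
    have e0 : Complex.exp (2 * π * Complex.I * ((((0 : ℤ) : ℝ) / 4 * ((l 0 : ℝ) - (l' 0 : ℝ)) +
        ((0 : ℤ) : ℝ) / 3 * ((l 1 : ℝ) - (l' 1 : ℝ)) : ℝ) : ℂ))
        = 1 := by
      simp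
    rw [e0, e1, e8, e9]
    ring
  have hmod : ∀ l ∈ L, ∀ l' ∈ L, l ≠ l' → (l 0 - l' 0) % 4 = 2 := by
    intro l hl l' hl' hne
    have h := hL l hl l' hl' hne
    rw [hprod] at h
    rcases mul_eq_zero.1 h with h | h
    · have h1 : Complex.exp (2 * π * Complex.I * ((l 0 - l' 0 : ℤ) / 4)) = -1 := by
        linear_combination h
      have h2 : Complex.exp (2 * π * Complex.I * ((l 0 - l' 0 : ℤ) / 4) - π * Complex.I) = 1 := by
        rw [Complex.exp_sub, h1, Complex.exp_pi_mul_I]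
        norm_num
      rw [Complex.exp_eq_one_iff] at h2
      obtain ⟨n, hn⟩ := h2
      have h3 : ((l 0 - l' 0 : ℤ) : ℂ) = ((4 * n + 2 : ℤ) : ℂ) := by
        have hpi : (2 * π * Complex.I) ≠ 0 := Complex.two_pi_I_ne_zero
        have : (2 * π * Complex.I) * ((l 0 - l' 0 : ℤ) : ℂ) = (2 * π * Complex.I) * ((4 * n + 2 : ℤ) : ℂ) := by
          push_cast at hn ⊢
          linear_combination 4 * hn
        exact mul_left_cancel₀ hpi this
      have h4 : l 0 - l' 0 = 4 * n + 2 := by exact_mod_cast h3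
      omega
    · exfalso
      have h1 : Complex.exp (2 * π * Complex.I * ((l 1 - l' 1 : ℤ) / 3)) = -1 := by
        linear_combination h
      have h2 : Complex.exp (2 * π * Complex.I * ((l 1 - l' 1 : ℤ) / 3) - π * Complex.I) = 1 := by
        rw [Complex.exp_sub, h1, Complex.exp_pi_mul_I]
        norm_num
      rw [Complex.exp_eq_one_iff] at h2
      obtain ⟨n, hn⟩ := h2
      have h3 : ((2 * (l 1 - l' 1) : ℤ) : ℂ) = ((6 * n + 3 : ℤ) : ℂ) := by
        have hpi : (2 * π * Complex.I) ≠ 0 := Complex.two_pi_I_ne_zero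
        have : (2 * π * Complex.I) * ((2 * (l 1 - l' 1) : ℤ) : ℂ) = (2 * π * Complex.I) * ((6 * n + 3 : ℤ) : ℂ) := by
          push_cast at hn ⊢
          linear_combination 6 * hn
        exact mul_left_cancel₀ hpi this
      have h4 : 2 * (l 1 - l' 1) = 6 * n + 3 := by exact_mod_cast h3
      omega
  obtain ⟨a, b, c, ha, hb, hc, hab, hac, hbc⟩ := (Finset.two_lt_card_iff (s := L)).1 (by omega)
  have h1 := hmod a ha b hb hab
  have h2 := hmod b hb c hc hbc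
  have h3 := hmod a ha c hc hac
  omega

end Pool.Agent.V1179.Spec
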