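import Mathlib

open MeasureTheory Set Matrix
open scoped ENNReal Real

noncomputable section
namespace Pool.Agent.V1179.Spec

/-- An `L²` function on `(0,1]` all of whose Fourier coefficients vanish is zero a.e. -/
lemma ae_zero_of_coeff {f : ℝ → ℂ} (hf : MemLp f 2 (volume.restrict (Ioc (0 : ℝ) 1)))
    (h : ∀ n : ℤ, ∫ x in Ioc (0 : ℝ) 1, f x * Complex.exp (-(2 * π * Complex.I * (n * x))) = 0) :
    f =ᵐ[volume.restrict (Ioc (0 : ℝ) 1)] 0 := by
  have hab : (0 : ℝ) < 1 := one_pos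
  have h0 : ∀ n : ℤ, fourierCoeffOn hab f n = 0 := by
    intro n
    rw [fourierCoeffOn_eq_integral]
    rw [intervalIntegral.integral_of_le hab.le]
    have : ∀ x : ℝ, (fourier (-n) : C(AddCircle ((1 : ℝ) - 0), ℂ)) (x : AddCircle ((1 : ℝ) - 0)) • f x
        = f x * Complex.exp (-(2 * π * Complex.I * (n * x))) := by
      intro x
      rw [fourier_coe_apply]
      rw [smul_eq_mul, mul_comm]
      congr 2
      push_cast
      ring
    simp_rw [this, h n]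
    simp
  have h1 := hasSum_sq_fourierCoeffOn (hab := hab) (f := f) hf
  simp_rw [h0] at h1
  have h2 : ((1 : ℝ) - 0)⁻¹ • ∫ x in (0 : ℝ)..1, ‖f x‖ ^ 2 = 0 := by
    have h3 : HasSum (fun i : ℤ => ‖(0 : ℂ)‖ ^ 2) 0 := by
      simp only [norm_zero, ne_eq, OfNat.ofNat_ne_zero, not_false_eq_true, zero_pow]
      exact hasSum_zero
    exact h1.unique h3
  simp only [sub_zero, inv_one, one_smul] at h2
  rw [intervalIntegral.integral_of_le hab.le] at h2
  have hint : Integrable (fun x => ‖f x‖ ^ 2) (volume.restrict (Ioc (0 : ℝ) 1)) := by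
    have := hf.integrable_norm_pow (by norm_num)
    simpa using this
  rw [integral_eq_zero_iff_of_nonneg (fun x => by positivity) hint] at h2
  filter_upwards [h2] with x hx
  simpa using hx

/-- The second-coordinate function: base-4 digits `≥ 2` of `y` are turned into ternary digits. -/
def G (y : ℝ) : ℝ := ∑' k : ℕ, (1 / 3 : ℝ) ^ (k + 1) * ((⌊2 * 4 ^ k * y⌋ % 2 : ℤ) : ℝ)

lemma term_bound (y : ℝ) (k : ℕ) :
    ‖(1 / 3 : ℝ) ^ (k + 1) * ((⌊2 * 4 ^ k * y⌋ % 2 : ℤ) : ℝ)‖ ≤ (1 / 3 : ℝ) ^ k := by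
  rw [norm_mul, norm_pow]
  have h1 : ‖((⌊2 * 4 ^ k * y⌋ % 2 : ℤ) : ℝ)‖ ≤ 1 := by
    rcases Int.emod_two_eq_zero_or_one ⌊2 * 4 ^ k * y⌋ with h | h <;> rw [h] <;> simp
  have h2 : ‖(1 / 3 : ℝ)‖ = 1 / 3 := by norm_num
  rw [h2]
  calc (1 / 3 : ℝ) ^ (k + 1) * ‖((⌊2 * 4 ^ k * y⌋ % 2 : ℤ) : ℝ)‖ ≤ (1 / 3 : ℝ) ^ (k + 1) * 1 := by
        gcongr
    _ ≤ (1 / 3 : ℝ) ^ k := by
        rw [pow_succ]
        have : (0 : ℝ) < (1 / 3 : ℝ) ^ k := by positivity
        nlinarith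

lemma summable_term (y : ℝ) :
    Summable (fun k : ℕ => (1 / 3 : ℝ) ^ (k + 1) * ((⌊2 * 4 ^ k * y⌋ % 2 : ℤ) : ℝ)) :=
  Summable.of_norm_bounded (summable_geometric_of_lt_one (by norm_num) (by norm_num))
    (term_bound y)

lemma measurable_G : Measurable G := by
  have h : ∀ n : ℕ, Measurable (fun y : ℝ => ∑ k ∈ Finset.range n,
      (1 / 3 : ℝ) ^ (k + 1) * ((⌊2 * 4 ^ k * y⌋ % 2 : ℤ) : ℝ)) := by
    intro n
    refine Finset.measurable_sum _ fun k _ => ?_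
    refine Measurable.const_mul ?_ _
    have h1 : Measurable (fun y : ℝ => ⌊2 * 4 ^ k * y⌋) :=
      Int.measurable_floor.comp (measurable_id.const_mul _)
    exact (measurable_from_top (f := fun z : ℤ => (((z % 2 : ℤ)) : ℝ))).comp h1
  refine measurable_of_tendsto_metrizable h ?_
  rw [tendsto_pi_nhds]
  intro y
  exact (summable_term y).hasSum.tendsto_sum_nat

lemma G_fun (y : ℝ) (hy : y ∈ Ico (0 : ℝ) 1) (e d : ℤ) (he : e = 0 ∨ e = 1) (hd : d = 0 ∨ d = 1) :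
    G ((y + (e + 2 * d)) / 4) = (d + G y) / 3 := by
  unfold G
  rw [(summable_term _).tsum_eq_zero_add]
  have h0 : ⌊2 * 4 ^ 0 * ((y + (e + 2 * d)) / 4)⌋ % 2 = d := by
    have h1 : ⌊2 * 4 ^ 0 * ((y + (e + 2 * d)) / 4)⌋ = d := by
      rw [Int.floor_eq_iff]
      obtain ⟨h2, h3⟩ := hy
      rcases he with rfl | rfl <;> rcases hd with rfl | rfl <;> norm_num <;>
        constructor <;> linarith
    rw [h1]
    rcases hd with rfl | rfl <;> norm_num
  rw [h0]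
  have h1 : ∀ k : ℕ, (1 / 3 : ℝ) ^ (k + 1 + 1) *
      ((⌊2 * 4 ^ (k + 1) * ((y + (e + 2 * d)) / 4)⌋ % 2 : ℤ) : ℝ)
      = (1 / 3) * ((1 / 3 : ℝ) ^ (k + 1) * ((⌊2 * 4 ^ k * y⌋ % 2 : ℤ) : ℝ)) := by
    intro k
    have h2 : (2 : ℝ) * 4 ^ (k + 1) * ((y + (e + 2 * d)) / 4)
        = 2 * 4 ^ k * y + ((2 * (4 ^ k * (e + 2 * d)) : ℤ) : ℝ) := by
      push_cast
      ring
    rw [h2, Int.floor_add_intCast]
    have h3 : (⌊(2 : ℝ) * 4 ^ k * y⌋ + 2 * (4 ^ k * (e + 2 * d))) % 2 = ⌊(2 : ℝ) * 4 ^ k * y⌋ % 2 := by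
      omega
    rw [h3]
    ring
  simp_rw [h1]
  rw [tsum_mul_left]
  ring

/-- The base measure: Lebesgue on `[0,1)`. -/
def ρ : Measure ℝ := volume.restrict (Ico (0 : ℝ) 1)

instance : IsProbabilityMeasure ρ := ⟨by simp [ρ]⟩

def Φ (d : ℤ) (y : ℝ) : Fin 2 → ℝ := ![2 * d + y, (d + G y) / 3]

lemma measurable_Φ (d : ℤ) : Measurable (Φ d) := by
  rw [measurable_pi_iff]
  intro i
  fin_cases i
  · simp only [Φ, Fin.zero_eta, cons_val_zero]
    exact measurable_id.const_add _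
  · simp only [Φ, Fin.mk_one, cons_val_one, cons_val_zero]
    exact (measurable_G.const_add _).div_const _

/-- The measure. -/
def μ : Measure (Fin 2 → ℝ) := (2⁻¹ : ℝ≥0∞) • (ρ.map (Φ 0) + ρ.map (Φ 1))

instance : IsProbabilityMeasure μ := ⟨by
  simp only [μ, Measure.smul_apply, Measure.add_apply]
  rw [Measure.map_apply (measurable_Φ 0) MeasurableSet.univ,
    Measure.map_apply (measurable_Φ 1) MeasurableSet.univ]
  simp only [preimage_univ, measure_univ, smul_eq_mul]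
  rw [one_add_one_eq_two]
  exact ENNReal.inv_mul_cancel (by norm_num) (by norm_num)⟩

/-- The scaling decomposition of Lebesgue measure on `[0,1)`. -/
lemma rho_piece (q : ℤ) (s : Set ℝ) (hs : MeasurableSet s) :
    (4⁻¹ : ℝ≥0∞) * ρ ((fun y : ℝ => (y + q) / 4) ⁻¹' s)
      = volume (s ∩ Ico ((q : ℝ) / 4) ((q + 1) / 4)) := by
  have hm : Measurable (fun y : ℝ => (y + q) / 4) := (measurable_id.add_const _).div_const _
  rw [ρ, Measure.restrict_apply (hm hs)]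
  have h1 : (fun y : ℝ => (y + q) / 4) ⁻¹' s ∩ Ico (0 : ℝ) 1
      = (fun y : ℝ => y + q) ⁻¹' ((fun z : ℝ => (1 / 4 : ℝ) * z) ⁻¹'
        (s ∩ Ico ((q : ℝ) / 4) ((q + 1) / 4))) := by
    ext y
    simp only [mem_inter_iff, mem_preimage, mem_Ico]
    have e : (1 / 4 : ℝ) * (y + q) = (y + q) / 4 := by ring
    rw [e]
    constructor
    · rintro ⟨h, h2, h3⟩
      exact ⟨h, by linarith, by linarith⟩
    · rintro ⟨h, h2, h3⟩
      exact ⟨h, by linarith, by linarith⟩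
  rw [h1, measure_preimage_add_right, Real.volume_preimage_mul_left (by norm_num)]
  rw [← mul_assoc]
  have h2 : (4⁻¹ : ℝ≥0∞) * ENNReal.ofReal |(1 / 4 : ℝ)⁻¹| = 1 := by
    norm_num
    exact ENNReal.inv_mul_cancel (by norm_num) (by norm_num)
  rw [h2, one_mul]

lemma rho_decomp : ρ = (4⁻¹ : ℝ≥0∞) • (ρ.map (fun y : ℝ => (y + (0 : ℤ)) / 4) +
    ρ.map (fun y : ℝ => (y + (1 : ℤ)) / 4) + ρ.map (fun y : ℝ => (y + (2 : ℤ)) / 4) +
    ρ.map (fun y : ℝ => (y + (3 : ℤ)) / 4)) := by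
  have hm : ∀ q : ℤ, Measurable (fun y : ℝ => (y + q) / 4) :=
    fun q => (measurable_id.add_const _).div_const _
  ext s hs
  simp only [Measure.smul_apply, Measure.add_apply, smul_eq_mul]
  rw [Measure.map_apply (hm 0) hs, Measure.map_apply (hm 1) hs, Measure.map_apply (hm 2) hs,
    Measure.map_apply (hm 3) hs]
  rw [mul_add, mul_add, mul_add, rho_piece 0 s hs, rho_piece 1 s hs, rho_piece 2 s hs,
    rho_piece 3 s hs]
  rw [ρ, Measure.restrict_apply hs]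
  have hu : s ∩ Ico (0 : ℝ) 1 = (((s ∩ Ico (((0 : ℤ) : ℝ) / 4) ((((0 : ℤ) : ℝ) + 1) / 4)) ∪
      (s ∩ Ico (((1 : ℤ) : ℝ) / 4) ((((1 : ℤ) : ℝ) + 1) / 4))) ∪
      (s ∩ Ico (((2 : ℤ) : ℝ) / 4) ((((2 : ℤ) : ℝ) + 1) / 4))) ∪
      (s ∩ Ico (((3 : ℤ) : ℝ) / 4) ((((3 : ℤ) : ℝ) + 1) / 4)) := by
    ext x
    simp only [mem_inter_iff, mem_union, mem_Ico]
    push_cast
    constructor
    · rintro ⟨h, h1, h2⟩
      by_cases h3 : x < 1 / 4
      · left; left; left; exact ⟨h, by linarith, by linarith⟩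
      by_cases h4 : x < 2 / 4
      · left; left; right; exact ⟨h, by linarith, by linarith⟩
      by_cases h5 : x < 3 / 4
      · left; right; exact ⟨h, by linarith, by linarith⟩
      · right; exact ⟨h, by linarith, by linarith⟩
    · rintro (((⟨h, h1, h2⟩ | ⟨h, h1, h2⟩) | ⟨h, h1, h2⟩) | ⟨h, h1, h2⟩) <;>
        exact ⟨h, by linarith, by linarith⟩
  rw [hu]
  rw [measure_union, measure_union, measure_union]
  · rw [Set.disjoint_left]
    rintro x ⟨-, h1⟩ ⟨-, h2⟩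
    push_cast at h1 h2
    linarith [h1.2, h2.1]
  · exact hs.inter measurableSet_Ico
  · rw [Set.disjoint_left]
    rintro x (⟨-, h1⟩ | ⟨-, h1⟩) ⟨-, h2⟩ <;> push_cast at h1 h2 <;> linarith [h1.2, h2.1]
  · exact hs.inter measurableSet_Ico
  · rw [Set.disjoint_left]
    rintro x ((⟨-, h1⟩ | ⟨-, h1⟩) | ⟨-, h1⟩) ⟨-, h2⟩ <;> push_cast at h1 h2 <;>
      linarith [h1.2, h2.1]
  · exact hs.inter measurableSet_Ico

def R : Matrix (Fin 2) (Fin 2) ℤ := !![4, 0; 0, 3]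

def B : Finset (Fin 2 → ℤ) := {![0, 0], ![1, 0], ![8, 1], ![9, 1]}

lemma card_B : B.card = 4 := by decide

lemma invR (v : Fin 2 → ℝ) : (R.map (Int.cast : ℤ → ℝ))⁻¹ *ᵥ v = ![v 0 / 4, v 1 / 3] := by
  have h1 : (R.map (Int.cast : ℤ → ℝ)) = !![4, 0; 0, 3] := by
    ext i j
    fin_cases i <;> fin_cases j <;> simp [R]
  have h2 : (!![4, 0; 0, 3] : Matrix (Fin 2) (Fin 2) ℝ)⁻¹ = !![1 / 4, 0; 0, 1 / 3] := by
    apply Matrix.inv_eq_right_inv
    ext i j
    fin_cases i <;> fin_cases j <;> simp [Matrix.mul_apply, Fin.sum_univ_two]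
  rw [h1, h2]
  ext i
  fin_cases i <;> simp [Matrix.mulVec, dotProduct, Fin.sum_univ_two] <;> ring

def τ (b : Fin 2 → ℤ) (x : Fin 2 → ℝ) : Fin 2 → ℝ :=
  (R.map (Int.cast : ℤ → ℝ))⁻¹ *ᵥ (x + fun i => (b i : ℝ))

lemma τ_eq (b : Fin 2 → ℤ) (x : Fin 2 → ℝ) : τ b x = ![(x 0 + b 0) / 4, (x 1 + b 1) / 3] := by
  rw [τ, invR]
  simp

lemma measurable_τ (b : Fin 2 → ℤ) : Measurable (τ b) := by
  have : τ b = fun x : Fin 2 → ℝ => ![(x 0 + b 0) / 4, (x 1 + b 1) / 3] := by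
    ext x : 1
    exact τ_eq b x
  rw [this, measurable_pi_iff]
  intro i
  fin_cases i
  · simp only [Fin.zero_eta, cons_val_zero]
    exact ((measurable_pi_apply 0).add_const _).div_const _
  · simp only [Fin.mk_one, cons_val_one, cons_val_zero]
    exact ((measurable_pi_apply 1).add_const _).div_const _

lemma τ_Φ (e d d' : ℤ) (he : e = 0 ∨ e = 1) (hd : d = 0 ∨ d = 1) :
    ρ.map (τ ![e + 8 * d', d'] ∘ Φ d) = (ρ.map (fun y : ℝ => (y + (e + 2 * d : ℤ)) / 4)).map (Φ d') := by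
  have hm : Measurable (fun y : ℝ => (y + (e + 2 * d : ℤ)) / 4) :=
    (measurable_id.add_const _).div_const _
  rw [Measure.map_map (measurable_Φ d') hm]
  apply Measure.map_congr
  rw [ρ]
  filter_upwards [ae_restrict_mem measurableSet_Ico] with y hy
  simp only [Function.comp, τ_eq, Φ]
  have h := G_fun y hy e d he hd
  ext i
  fin_cases i
  · simp
    ring
  · simp
    rw [h]
    ring

lemma map_τ_μ (e d' : ℤ) (he : e = 0 ∨ e = 1) :
    μ.map (τ ![e + 8 * d', d']) = (2⁻¹ : ℝ≥0∞) •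
      ((ρ.map (fun y : ℝ => (y + (e : ℤ)) / 4)).map (Φ d') +
       (ρ.map (fun y : ℝ => (y + (e + 2 : ℤ)) / 4)).map (Φ d')) := by
  rw [μ, Measure.map_smul, Measure.map_add _ _ (measurable_τ _),
    Measure.map_map (measurable_τ _) (measurable_Φ 0),
    Measure.map_map (measurable_τ _) (measurable_Φ 1),
    τ_Φ e 0 d' he (Or.inl rfl), τ_Φ e 1 d' he (Or.inr rfl)]
  norm_num

lemma μ_inv : μ = ((B.card : ℝ≥0∞)⁻¹) • ∑ b ∈ B, μ.map (τ b) := by
  have hsum : ∑ b ∈ B, μ.map (τ b) = μ.map (τ ![0 + 8 * 0, 0]) + (μ.map (τ ![1 + 8 * 0, 0]) +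
      (μ.map (τ ![0 + 8 * 1, 1]) + μ.map (τ ![1 + 8 * 1, 1]))) := by
    rw [B, Finset.sum_insert, Finset.sum_insert, Finset.sum_insert, Finset.sum_singleton]
    · norm_num
    · decide
    · decide
    · decide
  rw [hsum, map_τ_μ 0 0 (Or.inl rfl), map_τ_μ 1 0 (Or.inr rfl), map_τ_μ 0 1 (Or.inl rfl),
    map_τ_μ 1 1 (Or.inr rfl), card_B]
  have hd : ∀ d : ℤ, ρ.map (Φ d) = (4⁻¹ : ℝ≥0∞) • (
    (ρ.map (fun y : ℝ => (y + (0 : ℤ)) / 4)).map (Φ d) +
    (ρ.map (fun y : ℝ => (y + (1 : ℤ)) / 4)).map (Φ d) +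
    (ρ.map (fun y : ℝ => (y + (2 : ℤ)) / 4)).map (Φ d) +
    (ρ.map (fun y : ℝ => (y + (3 : ℤ)) / 4)).map (Φ d)) := by
    intro d
    conv_lhs => rw [rho_decomp]
    rw [Measure.map_smul, Measure.map_add _ _ (measurable_Φ d),
      Measure.map_add _ _ (measurable_Φ d), Measure.map_add _ _ (measurable_Φ d)]
  conv_lhs => rw [μ, hd 0, hd 1]
  norm_num
  simp only [← smul_assoc, smul_eq_mul]
  rw [mul_comm (4⁻¹ : ℝ≥0∞) 2⁻¹]
  abel


lemma map_le (d : ℤ) (hd : d = 0 ∨ d = 1) : ρ.map (Φ d) ≤ (2 : ℝ≥0∞) • μ := by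
  rw [μ, ← smul_assoc, smul_eq_mul, ENNReal.mul_inv_cancel (by norm_num) (by norm_num), one_smul]
  rcases hd with rfl | rfl
  · exact Measure.le_add_right le_rfl
  · exact Measure.le_add_left le_rfl

lemma int_μ (g : (Fin 2 → ℝ) → ℂ) (hg : Integrable g μ) :
    ∫ x, g x ∂μ = 2⁻¹ * (∫ y, g (Φ 0 y) ∂ρ + ∫ y, g (Φ 1 y) ∂ρ) := by
  have h2 : Integrable g ((2 : ℝ≥0∞) • μ) := hg.smul_measure (by norm_num)
  have h0 : Integrable g (ρ.map (Φ 0)) := h2.mono_measure (map_le 0 (Or.inl rfl))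
  have h1 : Integrable g (ρ.map (Φ 1)) := h2.mono_measure (map_le 1 (Or.inr rfl))
  rw [μ, integral_smul_measure, integral_add_measure h0 h1,
    integral_map (measurable_Φ 0).aemeasurable h0.1,
    integral_map (measurable_Φ 1).aemeasurable h1.1]
  simp
  ring

/-- The spectrum. -/
def Λ : Set (Fin 2 → ℝ) := {l | ∃ n : ℤ, l = ![(n : ℝ), 0] ∨ l = ![(n : ℝ) + 1 / 4, 0]}

lemma int_exp_int (n : ℤ) (hn : n ≠ 0) (c : ℝ) :
    ∫ y, Complex.exp (2 * π * Complex.I * ((n * (c + y) : ℝ) : ℂ)) ∂ρ = 0 := by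
  rw [ρ, integral_Ico_eq_integral_Ioc, ← intervalIntegral.integral_of_le zero_le_one]
  have h : ∀ y : ℝ, Complex.exp (2 * π * Complex.I * ((n * (c + y) : ℝ) : ℂ))
      = Complex.exp (2 * π * Complex.I * (n * c)) * Complex.exp ((2 * π * Complex.I * n) * y) := by
    intro y
    rw [← Complex.exp_add]
    congr 1
    push_cast
    ring
  simp_rw [h]
  rw [intervalIntegral.integral_const_mul, integral_exp_mul_complex]
  · have h1 : Complex.exp (2 * π * Complex.I * n * ((1 : ℝ) : ℂ)) = 1 := by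
      rw [Complex.exp_eq_one_iff]
      exact ⟨n, by push_cast; ring⟩
    rw [h1]
    simp
  · have := Complex.two_pi_I_ne_zero
    have h2 : (n : ℂ) ≠ 0 := by exact_mod_cast hn
    positivity

lemma int_bounded (t : ℝ) : Integrable
    (fun x : Fin 2 → ℝ => Complex.exp (2 * π * Complex.I * ((t * x 0 : ℝ) : ℂ))) μ := by
  refine Integrable.of_bound (C := 1) ?_ ?_
  · apply Continuous.aestronglyMeasurable
    fun_prop
  · filter_upwards with x
    have : (2 * π * Complex.I * ((t * x 0 : ℝ) : ℂ)) = ((2 * π * (t * x 0) : ℝ) : ℂ) * Complex.I := by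
      push_cast
      ring
    rw [this, Complex.norm_exp_ofReal_mul_I]

lemma orth_int (n : ℤ) (hn : n ≠ 0) :
    ∫ x, Complex.exp (2 * π * Complex.I * (((n : ℝ) * x 0 : ℝ) : ℂ)) ∂μ = 0 := by
  rw [int_μ _ (int_bounded n)]
  have h0 := int_exp_int n hn (2 * (0 : ℤ))
  have h1 := int_exp_int n hn (2 * (1 : ℤ))
  simp only [Φ, cons_val_zero]
  rw [h0, h1]
  simp

lemma orth_quarter (t : ℝ) (ht : ∃ n : ℤ, t = n + 1 / 4 ∨ t = n - 1 / 4) :
    ∫ x, Complex.exp (2 * π * Complex.I * ((t * x 0 : ℝ) : ℂ)) ∂μ = 0 := by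
  rw [int_μ _ (int_bounded t)]
  simp only [Φ, cons_val_zero]
  have h : ∀ y : ℝ, Complex.exp (2 * π * Complex.I * ((t * (2 * (1 : ℤ) + y) : ℝ) : ℂ))
      = - Complex.exp (2 * π * Complex.I * ((t * (2 * (0 : ℤ) + y) : ℝ) : ℂ)) := by
    intro y
    have e : 2 * π * Complex.I * ((t * (2 * (1 : ℤ) + y) : ℝ) : ℂ)
       = 2 * π * Complex.I * ((t * (2 * (0 : ℤ) + y) : ℝ) : ℂ) + 2 * π * Complex.I * (2 * t) := by
      push_cast
      ring
    rw [e, Complex.exp_add]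
    have h2 : Complex.exp (2 * π * Complex.I * (2 * t)) = -1 := by
      obtain ⟨n, rfl | rfl⟩ := ht
      · have : 2 * π * Complex.I * (2 * (((n : ℝ) + 1 / 4 : ℝ) : ℂ))
            = π * Complex.I + ((2 * n : ℤ) : ℂ) * (2 * π * Complex.I) := by
          push_cast
          ring
        rw [this, Complex.exp_add, Complex.exp_int_mul_two_pi_mul_I, Complex.exp_pi_mul_I]
        norm_num
      · have : 2 * π * Complex.I * (2 * (((n : ℝ) - 1 / 4 : ℝ) : ℂ))
            = π * Complex.I + ((2 * n - 1 : ℤ) : ℂ) * (2 * π * Complex.I) := by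
          push_cast
          ring
        rw [this, Complex.exp_add, Complex.exp_int_mul_two_pi_mul_I, Complex.exp_pi_mul_I]
        norm_num
    rw [h2]
    ring
  simp_rw [h]
  rw [integral_neg]
  simp

lemma complete (f : (Fin 2 → ℝ) → ℂ) (hf : MemLp f 2 μ)
    (h : ∀ l ∈ Λ, ∫ x, f x * Complex.exp (-(2 * π * Complex.I * ((∑ i, l i * x i : ℝ) : ℂ))) ∂μ = 0) :
    f =ᵐ[μ] 0 := by
  have hf2 : MemLp f 2 ((2 : ℝ≥0∞) • μ) := hf.smul_measure (by norm_num)
  have hf0 : MemLp f 2 (ρ.map (Φ 0)) := hf2.mono_measure (map_le 0 (Or.inl rfl))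
  have hf1 : MemLp f 2 (ρ.map (Φ 1)) := hf2.mono_measure (map_le 1 (Or.inr rfl))
  have hF0 : MemLp (f ∘ Φ 0) 2 ρ := hf0.comp_of_map (measurable_Φ 0).aemeasurable
  have hF1 : MemLp (f ∘ Φ 1) 2 ρ := hf1.comp_of_map (measurable_Φ 1).aemeasurable
  have hex : ∀ (l : Fin 2 → ℝ), MemLp
      (fun x : Fin 2 → ℝ => Complex.exp (-(2 * π * Complex.I * ((∑ i, l i * x i : ℝ) : ℂ)))) 2 μ := by
    intro l
    refine MemLp.of_bound ?_ 1 ?_
    · apply Continuous.aestronglyMeasurable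
      fun_prop
    · filter_upwards with x
      have : -(2 * π * Complex.I * ((∑ i, l i * x i : ℝ) : ℂ))
          = ((-(2 * π * (∑ i, l i * x i)) : ℝ) : ℂ) * Complex.I := by
        push_cast
        ring
      rw [this, Complex.norm_exp_ofReal_mul_I]
  have hint : ∀ l : Fin 2 → ℝ, Integrable (fun x : Fin 2 → ℝ =>
      f x * Complex.exp (-(2 * π * Complex.I * ((∑ i, l i * x i : ℝ) : ℂ)))) μ := by
    intro l
    exact hf.integrable_mul (hex l)
  have hInt0 : Integrable (f ∘ Φ 0) ρ := hF0.integrable (by norm_num)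
  have hInt1 : Integrable (f ∘ Φ 1) ρ := hF1.integrable (by norm_num)
  have hb : ∀ (t : ℝ) (F : ℝ → ℂ), Integrable F ρ → Integrable (fun y : ℝ =>
      F y * Complex.exp (-(2 * π * Complex.I * (t * y)))) ρ := by
    intro t F hF
    refine hF.mul_bdd (c := 1) ?_ ?_
    · apply Continuous.aestronglyMeasurable
      fun_prop
    · filter_upwards with x
      have : -(2 * π * Complex.I * (t * x)) = ((-(2 * π * (t * x)) : ℝ) : ℂ) * Complex.I := by
        push_cast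
        ring
      rw [this, Complex.norm_exp_ofReal_mul_I]
  have key : ∀ t : ℝ, ![t, 0] ∈ Λ → ∫ y, ((f ∘ Φ 0) y +
      Complex.exp (-(2 * π * Complex.I * (2 * t))) * (f ∘ Φ 1) y) *
      Complex.exp (-(2 * π * Complex.I * (t * y))) ∂ρ = 0 := by
    intro t ht
    have h1 := h _ ht
    rw [int_μ _ (hint _)] at h1
    have h2 : ∫ y, f (Φ 0 y) * Complex.exp (-(2 * π * Complex.I *
        ((∑ i, (![t, 0] : Fin 2 → ℝ) i * (Φ 0 y) i : ℝ) : ℂ))) ∂ρ
        = ∫ y, (f ∘ Φ 0) y * Complex.exp (-(2 * π * Complex.I * (t * y))) ∂ρ := by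
      congr 1
      ext y
      simp [Fin.sum_univ_two, Φ]
    have h3 : ∫ y, f (Φ 1 y) * Complex.exp (-(2 * π * Complex.I *
        ((∑ i, (![t, 0] : Fin 2 → ℝ) i * (Φ 1 y) i : ℝ) : ℂ))) ∂ρ
        = ∫ y, Complex.exp (-(2 * π * Complex.I * (2 * t))) *
          ((f ∘ Φ 1) y * Complex.exp (-(2 * π * Complex.I * (t * y)))) ∂ρ := by
      congr 1
      ext y
      rw [mul_left_comm, ← Complex.exp_add]
      simp only [Fin.sum_univ_two, Φ, Function.comp]
      congr 2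
      simp
      ring
    rw [h2, h3] at h1
    have h4 : ∫ y, (f ∘ Φ 0) y * Complex.exp (-(2 * π * Complex.I * (t * y))) ∂ρ +
      ∫ y, Complex.exp (-(2 * π * Complex.I * (2 * t))) *
          ((f ∘ Φ 1) y * Complex.exp (-(2 * π * Complex.I * (t * y)))) ∂ρ = 0 := by
      rcases mul_eq_zero.1 h1 with h5 | h5
      · norm_num at h5
      · exact h5
    rw [← integral_add (hb t _ hInt0) ((hb t _ hInt1).const_mul _)] at h4
    rw [← h4]
    congr 1
    ext y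
    ring
  have hρ : ρ = volume.restrict (Ioc (0 : ℝ) 1) := by
    rw [ρ]
    exact Measure.restrict_congr_set Ico_ae_eq_Ioc
  -- first equation: F0 + F1 = 0
  have e1 : (fun y => (f ∘ Φ 0) y + (f ∘ Φ 1) y) =ᵐ[ρ] 0 := by
    rw [hρ]
    apply ae_zero_of_coeff
    · rw [← hρ]
      exact hF0.add hF1
    · intro n
      rw [← hρ]
      have h1 := key n ⟨n, Or.inl rfl⟩
      have h2 : Complex.exp (-(2 * π * Complex.I * (2 * ((n : ℝ) : ℂ)))) = 1 := by
        rw [Complex.exp_eq_one_iff]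
        exact ⟨-(2 * n), by push_cast; ring⟩
      rw [h2] at h1
      rw [← h1]
      congr 1
      ext y
      push_cast
      ring
  have e2 : (fun y : ℝ => ((f ∘ Φ 0) y - (f ∘ Φ 1) y) *
      Complex.exp (-(2 * π * Complex.I * ((1 / 4 : ℝ) * y)))) =ᵐ[ρ] 0 := by
    rw [hρ]
    apply ae_zero_of_coeff
    · rw [← hρ]
      have h1 : MemLp (fun y : ℝ => Complex.exp (-(2 * π * Complex.I * ((1 / 4 : ℝ) * y)))) ⊤ ρ := by
        refine MemLp.of_bound ?_ 1 ?_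
        · apply Continuous.aestronglyMeasurable
          fun_prop
        · filter_upwards with x
          have : -(2 * π * Complex.I * ((1 / 4 : ℝ) * x))
             = ((-(2 * π * ((1 / 4 : ℝ) * x)) : ℝ) : ℂ) * Complex.I := by
            push_cast
            ring
          rw [this, Complex.norm_exp_ofReal_mul_I]
      exact h1.mul (hF0.sub hF1)
    · intro n
      rw [← hρ]
      have h1 := key (n + 1 / 4) ⟨n, Or.inr rfl⟩
      have h2 : Complex.exp (-(2 * π * Complex.I * (2 * (((n : ℝ) + 1 / 4 : ℝ) : ℂ)))) = -1 := by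
        have : -(2 * π * Complex.I * (2 * (((n : ℝ) + 1 / 4 : ℝ) : ℂ)))
            = π * Complex.I + ((-(2 * n) - 1 : ℤ) : ℂ) * (2 * π * Complex.I) := by
          push_cast
          ring
        rw [this, Complex.exp_add, Complex.exp_int_mul_two_pi_mul_I, Complex.exp_pi_mul_I]
        norm_num
      rw [h2] at h1
      rw [← h1]
      congr 1
      ext y
      rw [mul_assoc, ← Complex.exp_add]
      have e : -(2 * π * Complex.I * ((1 / 4 : ℝ) * y)) + -(2 * π * Complex.I * (n * y))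
         = -(2 * π * Complex.I * ((((n : ℝ) + 1 / 4 : ℝ) : ℂ) * y)) := by
        push_cast
        ring
      rw [e]
      ring
  have hz : ∀ᵐ y ∂ρ, (f ∘ Φ 0) y = 0 ∧ (f ∘ Φ 1) y = 0 := by
    filter_upwards [e1, e2] with y h1 h2
    simp only [Pi.zero_apply] at h1 h2
    have h3 := (mul_eq_zero.1 h2).resolve_right (Complex.exp_ne_zero _)
    have h4 : (f ∘ Φ 0) y = (f ∘ Φ 1) y := sub_eq_zero.1 h3
    rw [h4] at h1
    have h5 : (f ∘ Φ 1) y = 0 := by
      have : (2 : ℂ) * (f ∘ Φ 1) y = 0 := by rw [two_mul]; exact h1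
      simpa using this
    exact ⟨h4.trans h5, h5⟩
  have hae : ∀ d : ℤ, AEStronglyMeasurable f (ρ.map (Φ d)) → (∀ᵐ y ∂ρ, (f ∘ Φ d) y = 0) →
      f =ᵐ[ρ.map (Φ d)] 0 := by
    intro d hm hz
    obtain ⟨g, hg, hfg⟩ := hm
    have h1 : ∀ᵐ y ∂ρ, f (Φ d y) = g (Φ d y) := ae_of_ae_map (measurable_Φ d).aemeasurable hfg
    have h2 : ∀ᵐ y ∂ρ, g (Φ d y) = 0 := by
      filter_upwards [h1, hz] with y h3 h4
      rw [← h3]
      exact h4
    have h3 : ∀ᵐ x ∂(ρ.map (Φ d)), g x = 0 := by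
      rw [ae_map_iff (measurable_Φ d).aemeasurable]
      · exact h2
      · exact hg.measurable (measurableSet_singleton 0)
    filter_upwards [hfg, h3] with x h4 h5
    rw [h4, h5]
    rfl
  have h0 := hae 0 hf0.1 (hz.mono fun y hy => hy.1)
  have h1 := hae 1 hf1.1 (hz.mono fun y hy => hy.2)
  rw [μ, Filter.EventuallyEq]
  apply Measure.ae_smul_measure
  rw [ae_add_measure_iff]
  exact ⟨h0, h1⟩

end Pool.Agent.V1179.Spec
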