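import Pool.Agent.V1179.Spec.Words

open Set Filter Topology Matrix MeasureTheory
open scoped ENNReal Real NNReal

noncomputable section
namespace Pool.Agent.V1179.Spec

variable {d : ℕ} {R : Matrix (Fin d) (Fin d) ℤ} {B : Finset (Fin d → ℤ)}
  {μ : Measure (Fin d → ℝ)} {T : Set (Fin d → ℝ)}

lemma tw_mem (hTeq : T = ⋃ b ∈ B, ph R b '' T) (w : List (Fin d → ℤ)) (hw : ∀ b ∈ w, b ∈ B)
    (t : Fin d → ℝ) (ht : t ∈ T) : tw R w t ∈ T := by
  induction w with
  | nil => exact ht
  | cons b w ih =>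
    have h1 := ih fun c hc => hw c (by simp [hc])
    rw [hTeq]
    exact mem_iUnion₂.2 ⟨b, hw b (by simp), _, h1, rfl⟩

lemma exists_word (hTeq : T = ⋃ b ∈ B, ph R b '' T) (n : ℕ) (t : Fin d → ℝ) (ht : t ∈ T) :
    ∃ s ∈ W B n, ∃ t' ∈ T, t = tw R s t' := by
  induction n generalizing t with
  | zero => exact ⟨[], by simp [W], t, ht, rfl⟩
  | succ n ih =>
    rw [hTeq] at ht
    obtain ⟨b, hb, t1, ht1, rfl⟩ := mem_iUnion₂.1 ht
    obtain ⟨s, hs, t', ht', rfl⟩ := ih t1 ht1
    refine ⟨b :: s, ?_, t', ht', rfl⟩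
    rw [mem_W] at hs ⊢
    refine ⟨by simp [hs.1], ?_⟩
    intro c hc
    rcases List.mem_cons.1 hc with rfl | hc
    · exact hb
    · exact hs.2 c hc

lemma pow_inv_card (hB : B.Nonempty) (n : ℕ) :
    ((B.card : ℝ)⁻¹) ^ n * (B.card : ℝ) ^ n = 1 := by
  rw [← mul_pow, inv_mul_cancel₀, one_pow]
  exact_mod_cast hB.card_pos.ne'

/-- The invariant measure is carried by the attractor. -/
theorem supp [IsProbabilityMeasure μ] (hdet : R.det ≠ 0) (hInv : Inv R B μ) (hB : B.Nonempty)
    (c : ℕ → ℝ) (hc0 : ∀ n, 0 ≤ c n) (hc : Tendsto c atTop (𝓝 0))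
    (hcon : ∀ n x, ‖(AA R ^ n) *ᵥ x‖ ≤ c n * ‖x‖)
    (hT : IsCompact T) (hTne : T.Nonempty) (hTeq : T = ⋃ b ∈ B, ph R b '' T) : μ Tᶜ = 0 := by
  obtain ⟨t, ht⟩ := hTne
  have key : ∀ δ : ℝ, 0 < δ → μ {x | δ < Metric.infDist x T} = 0 := by
    intro δ hδ
    have hS : MeasurableSet {x | δ < Metric.infDist x T} :=
      (isOpen_lt continuous_const (Metric.continuous_infDist_pt T)).measurableSet
    have hreal : ∀ ε : ℝ, 0 < ε → μ.real {x | δ < Metric.infDist x T} ≤ ε := by
      intro ε hε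
      obtain ⟨K, -, hK, hKε⟩ := (MeasurableSet.univ (α := Fin d → ℝ)).exists_isCompact_sdiff_lt
        (μ := μ) (measure_ne_top μ univ) (ε := ENNReal.ofReal ε) (by simpa using hε)
      have hKm : μ.real Kᶜ ≤ ε := by
        rw [compl_eq_univ_sdiff, measureReal_def]
        have := ENNReal.toReal_mono ENNReal.ofReal_ne_top hKε.le
        rwa [ENNReal.toReal_ofReal hε.le] at this
      obtain ⟨r, hr⟩ := hK.isBounded.exists_norm_le
      have hr' : ∀ x ∈ K, ‖x‖ ≤ |r| := fun x hx => (hr x hx).trans (le_abs_self r)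
      have hlim : Tendsto (fun n => c n * (|r| + ‖t‖)) atTop (𝓝 0) := by
        have := hc.mul_const (|r| + ‖t‖)
        rwa [zero_mul] at this
      obtain ⟨n, hn⟩ := (hlim.eventually (gt_mem_nhds hδ)).exists
      rw [meas_words hInv n _ hS]
      have hle : ∀ w ∈ W B n, μ.real (tw R w ⁻¹' {x | δ < Metric.infDist x T}) ≤ ε := by
        intro w hw
        refine le_trans (measureReal_mono ?_ (measure_ne_top _ _)) hKm
        intro x hx hxK
        rw [mem_preimage, mem_ofPred_eq] at hx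
        have hwl := (mem_W B n w).1 hw
        have h1 : Metric.infDist (tw R w x) T ≤ dist (tw R w x) (tw R w t) :=
          Metric.infDist_le_dist_of_mem (tw_mem hTeq w hwl.2 t ht)
        have h2 : dist (tw R w x) (tw R w t) ≤ c n * (|r| + ‖t‖) := by
          rw [dist_eq_norm, tw_eq hdet, tw_eq hdet, ← Matrix.mulVec_sub, hwl.1]
          refine (hcon n _).trans ?_
          refine mul_le_mul_of_nonneg_left ?_ (hc0 n)
          have : x + cst (zz R w) - (t + cst (zz R w)) = x - t := by abel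
          rw [this]
          exact (norm_sub_le _ _).trans (by gcongr; exact hr' x hxK)
        linarith
      calc ((B.card : ℝ)⁻¹) ^ n * ∑ w ∈ W B n, μ.real (tw R w ⁻¹' {x | δ < Metric.infDist x T})
          ≤ ((B.card : ℝ)⁻¹) ^ n * ∑ w ∈ W B n, ε :=
            mul_le_mul_of_nonneg_left (Finset.sum_le_sum hle)
              (pow_nonneg (inv_nonneg.2 (Nat.cast_nonneg _)) _)
        _ = ε := by
            rw [Finset.sum_const, card_W, nsmul_eq_mul, Nat.cast_pow, ← mul_assoc,
              pow_inv_card hB, one_mul]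
    have h0 : μ.real {x | δ < Metric.infDist x T} ≤ 0 :=
      le_of_forall_pos_le_add fun ε hε => by simpa using hreal ε hε
    have h1 : μ.real {x | δ < Metric.infDist x T} = 0 := le_antisymm h0 measureReal_nonneg
    exact (measureReal_eq_zero_iff (measure_ne_top _ _)).1 h1
  have hsub : Tᶜ ⊆ ⋃ n : ℕ, {x | 1 / ((n : ℝ) + 1) < Metric.infDist x T} := by
    intro x hx
    have h1 : 0 < Metric.infDist x T := (hT.isClosed.notMem_iff_infDist_pos ⟨t, ht⟩).1 hx
    obtain ⟨n, hn⟩ := exists_nat_one_div_lt h1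
    exact mem_iUnion.2 ⟨n, hn⟩
  refine measure_mono_null hsub ?_
  rw [measure_iUnion_null_iff]
  intro n
  exact key _ (by positivity)

/-- value of a functional along a word -/
def sg (R : Matrix (Fin d) (Fin d) ℤ) (f : Module.Dual ℝ (Fin d → ℝ)) : ℕ → List (Fin d → ℤ) → ℝ
  | _, [] => 0
  | k, b :: w => f ((AA R ^ (k + 1)) *ᵥ cst b) + sg R f (k + 1) w

lemma f_tw (f : Module.Dual ℝ (Fin d → ℝ)) (w : List (Fin d → ℤ)) (k : ℕ) (x : Fin d → ℝ) :
    f ((AA R ^ k) *ᵥ tw R w x) = sg R f k w + f ((AA R ^ (k + w.length)) *ᵥ x) := by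
  induction w generalizing k with
  | nil => simp [sg, tw]
  | cons b w ih =>
    simp only [tw, sg, List.length_cons]
    rw [ph, Matrix.mulVec_mulVec, ← pow_succ, Matrix.mulVec_add, map_add, ih (k + 1)]
    have : k + 1 + w.length = k + (w.length + 1) := by ring
    rw [this]
    ring

lemma uniquemax (f : Module.Dual ℝ (Fin d → ℝ)) (hB : B.Nonempty) (n k : ℕ)
    (hf : ∀ j, k < j → j ≤ k + n → ∀ b ∈ B, ∀ b' ∈ B, b ≠ b' →
      f ((AA R ^ j) *ᵥ cst b) ≠ f ((AA R ^ j) *ᵥ cst b')) :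
    ∃ w₀ ∈ W B n, ∀ w ∈ W B n, w ≠ w₀ → sg R f k w < sg R f k w₀ := by
  induction n generalizing k with
  | zero => exact ⟨[], by simp [W], fun w hw hne => absurd (by simpa [W] using hw) hne⟩
  | succ n ih =>
    obtain ⟨b₀, hb₀, hmax⟩ := B.exists_max_image (fun b => f ((AA R ^ (k + 1)) *ᵥ cst b)) hB
    obtain ⟨w₀, hw₀, hw₀max⟩ := ih (k + 1) (fun j hj1 hj2 => hf j (by omega) (by omega))
    refine ⟨b₀ :: w₀, ?_, ?_⟩
    · rw [mem_W] at hw₀ ⊢
      refine ⟨by simp [hw₀.1], ?_⟩
      intro c hc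
      rcases List.mem_cons.1 hc with rfl | hc
      · exact hb₀
      · exact hw₀.2 c hc
    · intro w hw hne
      rw [mem_W] at hw
      cases w with
      | nil => simp at hw
      | cons b w =>
        have hb : b ∈ B := hw.2 b (by simp)
        have hw' : w ∈ W B n := (mem_W B n w).2 ⟨by simpa using hw.1, fun c hc => hw.2 c (by simp [hc])⟩
        simp only [sg]
        have h1 := hmax b hb
        by_cases hbb : b = b₀
        · subst hbb
          have : w ≠ w₀ := fun h => hne (by rw [h])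
          have := hw₀max w hw' this
          linarith
        · have h2 := hf (k + 1) (by omega) (by omega) b hb b₀ hb₀ hbb
          have h3 : f ((AA R ^ (k + 1)) *ᵥ cst b) < f ((AA R ^ (k + 1)) *ᵥ cst b₀) :=
            lt_of_le_of_ne h1 h2
          have h4 : sg R f (k + 1) w ≤ sg R f (k + 1) w₀ := by
            by_cases hww : w = w₀
            · rw [hww]
            · exact (hw₀max w hw' hww).le
          linarith

/-- Distinctness of all iterated digit sums under the uniformity property. -/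
theorem distinct [IsProbabilityMeasure μ] (hdet : R.det ≠ 0) (hInv : Inv R B μ)
    (hT : IsCompact T) (hsupp : μ Tᶜ = 0)
    (huni : ∀ U, MeasurableSet U → ∀ a : Fin d → ℝ,
      (∀ s, MeasurableSet s → 2 * μ.real (U ∩ (fun x => x + a) ⁻¹' s) ≤ μ.real s) → μ.real U = 0)
    (n : ℕ) (w : List (Fin d → ℤ)) (hw : w ∈ W B n) (w' : List (Fin d → ℤ)) (hw' : w' ∈ W B n)
    (hz : zz R w = zz R w') : w = w' := by
  by_contra hne
  have hBne : B.Nonempty := by
    rw [mem_W] at hw hw'
    cases w with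
    | nil =>
      exfalso
      apply hne
      have : w'.length = 0 := by rw [hw'.1, ← hw.1]; rfl
      exact (List.length_eq_zero_iff.1 this).symm
    | cons b w => exact ⟨b, hw.2 b (by simp)⟩
  -- a generic functional
  obtain ⟨f, hf⟩ : ∃ f : Module.Dual ℝ (Fin d → ℝ), ∀ j, 0 < j → j ≤ 0 + n → ∀ b ∈ B, ∀ b' ∈ B,
      b ≠ b' → f ((AA R ^ j) *ᵥ cst b) ≠ f ((AA R ^ j) *ᵥ cst b') := by
    let ι := {p : Fin (n + 1) × B × B // p.2.1 ≠ p.2.2}
    have hv : ∀ p : ι, (AA R ^ (p.1.1 : ℕ)) *ᵥ (cst p.1.2.1.1 - cst p.1.2.2.1) ≠ 0 := by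
      rintro ⟨⟨j, b, b'⟩, hp⟩ h0
      simp only at h0 hp
      have h1 := An_inj hdet j (cst b.1 - cst b'.1) 0 (by rw [h0, Matrix.mulVec_zero])
      apply hp
      rw [Subtype.ext_iff]
      ext i
      have := congrFun h1 i
      simp only [cst, Pi.sub_apply, Pi.zero_apply] at this
      have h2 : ((b.1 i : ℤ) : ℝ) = (b'.1 i : ℝ) := by linarith
      exact_mod_cast h2
    obtain ⟨f, hf⟩ := Module.exists_dual_forall_apply_ne_zero
      (K := ℝ) (fun p : ι => (AA R ^ (p.1.1 : ℕ)) *ᵥ (cst p.1.2.1.1 - cst p.1.2.2.1)) hv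
    refine ⟨f, ?_⟩
    intro j _ hj b hb b' hb' hbb h
    refine hf ⟨(⟨j, by omega⟩, ⟨b, hb⟩, ⟨b', hb'⟩), ?_⟩ ?_
    · intro h
      exact hbb (congrArg Subtype.val h)
    · show f ((AA R ^ j) *ᵥ (cst b - cst b')) = 0
      rw [Matrix.mulVec_sub, map_sub, h, sub_self]
  obtain ⟨w₀, hw₀, hmax⟩ := uniquemax (R := R) f hBne n 0 hf
  have hfc : Continuous f := f.continuous_of_finiteDimensional
  -- the second largest value
  have hne2 : ((W B n).erase w₀).Nonempty := by
    by_cases h : w = w₀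
    · exact ⟨w', Finset.mem_erase.2 ⟨fun h' => hne (by rw [h, h']), hw'⟩⟩
    · exact ⟨w, Finset.mem_erase.2 ⟨h, hw⟩⟩
  obtain ⟨w₁, hw₁, hw₁max⟩ := ((W B n).erase w₀).exists_max_image (fun w => sg R f 0 w) hne2
  have hgap : sg R f 0 w₁ < sg R f 0 w₀ :=
    hmax w₁ (Finset.mem_erase.1 hw₁).2 (Finset.mem_erase.1 hw₁).1
  set δ := sg R f 0 w₀ - sg R f 0 w₁ with hδ
  have hδ0 : 0 < δ := by rw [hδ]; linarith
  set g : (Fin d → ℝ) → ℝ := fun x => f ((AA R ^ n) *ᵥ x) with hg
  have hgc : Continuous g := hfc.comp (Continuous.matrix_mulVec continuous_const continuous_id)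
  have htw : ∀ v ∈ W B n, ∀ x, f (tw R v x) = sg R f 0 v + g x := by
    intro v hv x
    have h1 := f_tw (R := R) f v 0 x
    rw [pow_zero, Matrix.one_mulVec, zero_add, ((mem_W B n v).1 hv).1] at h1
    exact h1
  obtain ⟨C, hC⟩ : ∃ C, ∀ x ∈ T, g x ≤ C := by
    obtain ⟨C, hC⟩ := (hT.image hgc).bddAbove
    exact ⟨C, fun x hx => hC (mem_image_of_mem g hx)⟩
  have hC0 : μ {x | C < g x} = 0 := by
    refine measure_mono_null ?_ hsupp
    intro x hx hxT
    exact absurd (hC x hxT) (not_le.2 hx)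
  have hex : ∃ j : ℕ, μ {x | C - j * δ < g x} ≠ 0 := by
    by_contra hcon
    push Not at hcon
    have h1 : (⋃ j : ℕ, {x | C - j * δ < g x}) = univ := by
      rw [eq_univ_iff_forall]
      intro x
      obtain ⟨j, hj⟩ := exists_nat_gt ((C - g x) / δ)
      refine mem_iUnion.2 ⟨j, ?_⟩
      rw [div_lt_iff₀ hδ0] at hj
      show C - j * δ < g x
      linarith
    have h2 : μ univ = 0 := by
      rw [← h1, measure_iUnion_null_iff]
      exact hcon
    rw [measure_univ] at h2
    exact one_ne_zero h2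
  classical
  obtain ⟨c, hc1, hc2⟩ : ∃ c : ℝ, μ {x | c < g x} = 0 ∧ μ {x | c - δ < g x} ≠ 0 := by
    have hspec := Nat.find_spec hex
    have hmin := fun m => Nat.find_min hex (m := m)
    set j := Nat.find hex
    have hj0 : j ≠ 0 := by
      intro h0
      rw [h0] at hspec
      apply hspec
      simpa using hC0
    obtain ⟨m, hm⟩ := Nat.exists_eq_succ_of_ne_zero hj0
    refine ⟨C - m * δ, ?_, ?_⟩
    · have := hmin m (by omega)
      push Not at this
      exact this
    · rw [hm] at hspec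
      have e : C - m * δ - δ = C - ((m.succ : ℕ) : ℝ) * δ := by push_cast; ring
      rw [e]
      exact hspec
  -- the open set
  set U : Set (Fin d → ℝ) := {x | c + sg R f 0 w₁ < f x} with hU
  have hUm : MeasurableSet U := (isOpen_lt continuous_const hfc).measurableSet
  have hUother : ∀ v ∈ W B n, v ≠ w₀ → μ.real (tw R v ⁻¹' U) = 0 := by
    intro v hv hvne
    rw [measureReal_eq_zero_iff (measure_ne_top _ _)]
    refine measure_mono_null ?_ hc1
    intro x hx
    rw [mem_preimage, hU, mem_ofPred_eq, htw v hv] at hx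
    have h1 : sg R f 0 v ≤ sg R f 0 w₁ := hw₁max v (Finset.mem_erase.2 ⟨hvne, hv⟩)
    show c < g x
    linarith
  have hUw₀ : μ.real (tw R w₀ ⁻¹' U) ≠ 0 := by
    rw [Ne, measureReal_eq_zero_iff (measure_ne_top _ _)]
    intro h0
    apply hc2
    refine measure_mono_null ?_ h0
    intro x hx
    rw [mem_preimage, hU, mem_ofPred_eq, htw w₀ hw₀]
    have : c - δ < g x := hx
    rw [hδ] at this
    linarith
  set N : ℝ := ((B.card : ℝ)⁻¹) ^ n with hN
  have hN0 : 0 < N := by
    have : (0 : ℝ) < B.card := by exact_mod_cast hBne.card_pos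
    positivity
  have hUpos : μ.real U ≠ 0 := by
    have h1 : μ.real U = N * ∑ v ∈ W B n, μ.real (tw R v ⁻¹' U) := meas_words hInv n U hUm
    have h2 : μ.real (tw R w₀ ⁻¹' U) ≤ ∑ v ∈ W B n, μ.real (tw R v ⁻¹' U) :=
      Finset.single_le_sum (f := fun v => μ.real (tw R v ⁻¹' U)) (fun _ _ => measureReal_nonneg) hw₀
    have h3 : 0 < μ.real (tw R w₀ ⁻¹' U) := lt_of_le_of_ne measureReal_nonneg (Ne.symm hUw₀)
    rw [h1]
    have : 0 < ∑ v ∈ W B n, μ.real (tw R v ⁻¹' U) := by linarith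
    positivity
  apply hUpos
  set a : Fin d → ℝ := (AA R ^ n) *ᵥ (cst (zz R w) - cst (zz R w₀)) with ha
  have htwa : ∀ x, tw R w₀ x + a = tw R w x := by
    intro x
    rw [tw_eq hdet, tw_eq hdet, ((mem_W B n w₀).1 hw₀).1, ((mem_W B n w).1 hw).1, ha,
      ← Matrix.mulVec_add]
    congr 1
    abel
  have htww : tw R w = tw R w' := by
    ext1 x
    rw [tw_eq hdet, tw_eq hdet, ((mem_W B n w').1 hw').1, ((mem_W B n w).1 hw).1, hz]
  refine huni U hUm a ?_
  intro s hs
  have hma : Measurable (fun x : Fin d → ℝ => x + a) := measurable_id.add_const a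
  have h1 : μ.real (U ∩ (fun x => x + a) ⁻¹' s)
      = N * ∑ v ∈ W B n, μ.real (tw R v ⁻¹' (U ∩ (fun x => x + a) ⁻¹' s)) :=
    meas_words hInv n _ (hUm.inter (hma hs))
  have h2 : ∑ v ∈ W B n, μ.real (tw R v ⁻¹' (U ∩ (fun x => x + a) ⁻¹' s))
      = μ.real (tw R w₀ ⁻¹' (U ∩ (fun x => x + a) ⁻¹' s)) := by
    refine Finset.sum_eq_single_of_mem w₀ hw₀ ?_
    intro v hv hvne
    have h3 := hUother v hv hvne
    have h4 : μ.real (tw R v ⁻¹' (U ∩ (fun x => x + a) ⁻¹' s)) ≤ μ.real (tw R v ⁻¹' U) :=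
      measureReal_mono (preimage_mono inter_subset_left) (measure_ne_top _ _)
    exact le_antisymm (by rw [h3] at h4; exact h4) measureReal_nonneg
  have h3 : μ.real (tw R w₀ ⁻¹' (U ∩ (fun x => x + a) ⁻¹' s)) ≤ μ.real (tw R w ⁻¹' s) := by
    apply measureReal_mono _ (measure_ne_top _ _)
    intro x hx
    have h4 : tw R w₀ x + a ∈ s := hx.2
    rw [htwa] at h4
    exact h4
  have h4 : μ.real s = N * ∑ v ∈ W B n, μ.real (tw R v ⁻¹' s) := meas_words hInv n s hs
  have h5 : μ.real (tw R w ⁻¹' s) + μ.real (tw R w' ⁻¹' s) ≤ ∑ v ∈ W B n, μ.real (tw R v ⁻¹' s) := by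
    rw [← Finset.sum_pair (f := fun v => μ.real (tw R v ⁻¹' s)) hne]
    apply Finset.sum_le_sum_of_subset_of_nonneg
    · intro v hv
      rcases Finset.mem_insert.1 hv with rfl | hv
      · exact hw
      · rw [Finset.mem_singleton.1 hv]
        exact hw'
    · intro _ _ _
      exact measureReal_nonneg
  rw [← htww] at h5
  rw [h1, h2, h4]
  nlinarith


/-- finitely many integer vectors of bounded norm -/
lemma finite_bounded (C : ℝ) : {z : Fin d → ℤ | ‖cst z‖ ≤ C}.Finite := by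
  refine (Set.finite_Icc (fun _ : Fin d => -⌈C⌉) (fun _ => ⌈C⌉)).subset ?_
  intro z hz
  have hz' : ‖cst z‖ ≤ C := hz
  have h1 : ∀ i, |(z i : ℝ)| ≤ C := fun i => (norm_le_pi_norm (cst z) i).trans hz'
  constructor
  · intro i
    have h2 := (abs_le.1 (h1 i)).1
    have h3 : -((⌈C⌉ : ℤ) : ℝ) ≤ z i := by
      have := Int.le_ceil C
      linarith
    exact_mod_cast h3
  · intro i
    have h2 := (abs_le.1 (h1 i)).2
    have h3 : (z i : ℝ) ≤ ((⌈C⌉ : ℤ) : ℝ) := by
      have := Int.le_ceil C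
      linarith
    exact_mod_cast h3

/-- No overlap from distinctness (Schief's argument). -/
theorem no_overlap [IsProbabilityMeasure μ] (hdet : R.det ≠ 0) (hInv : Inv R B μ)
    (hT : IsCompact T) (hTeq : T = ⋃ b ∈ B, ph R b '' T) (hsupp : μ Tᶜ = 0)
    (hdist : ∀ n, ∀ w ∈ W B n, ∀ w' ∈ W B n, zz R w = zz R w' → w = w')
    (b : Fin d → ℤ) (hb : b ∈ B) (b' : Fin d → ℤ) (hb' : b' ∈ B) (hbb : b ≠ b') :
    μ (ph R b '' T ∩ ph R b' '' T) = 0 := by
  classical
  obtain ⟨C, hC⟩ := hT.isBounded.exists_norm_le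
  set F : Finset (Fin d → ℤ) := (finite_bounded (d := d) (C + C)).toFinset with hF
  have hFmem : ∀ v ∈ T, ∀ v' ∈ T, ∀ z : Fin d → ℤ, cst z = v - v' → z ∈ F := by
    intro v hv v' hv' z hz
    rw [hF, Set.Finite.mem_toFinset]
    show ‖cst z‖ ≤ C + C
    rw [hz]
    exact (norm_sub_le _ _).trans (add_le_add (hC v hv) (hC v' hv'))
  -- neighbours
  set Nb : ℕ → List (Fin d → ℤ) → Finset (List (Fin d → ℤ)) :=
    fun n u => (W B n).filter (fun w' => zz R u - zz R w' ∈ F) with hNb
  have hNbcard : ∀ n u, (Nb n u).card ≤ F.card := by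
    intro n u
    refine Finset.card_le_card_of_injOn (fun w' => zz R u - zz R w') ?_ ?_
    · intro w' hw'
      exact (Finset.mem_filter.1 hw').2
    · intro w1 h1 w2 h2 h
      have h1' := (Finset.mem_filter.1 h1).1
      have h2' := (Finset.mem_filter.1 h2).1
      refine hdist n w1 h1' w2 h2' ?_
      have h' : zz R u - zz R w1 = zz R u - zz R w2 := h
      exact sub_right_injective h'
  obtain ⟨k, u, hu, humax⟩ : ∃ (k : ℕ) (u : List (Fin d → ℤ)), u ∈ W B k ∧
      ∀ n, ∀ v ∈ W B n, (Nb n v).card ≤ (Nb k u).card := by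
    let P : ℕ → Prop := fun m => ∃ k, ∃ u ∈ W B k, (Nb k u).card = m
    have hP0 : P (Nb 0 []).card := ⟨0, [], by simp [W], rfl⟩
    have hP0le : (Nb 0 []).card ≤ F.card := hNbcard 0 []
    have hfs : P (Nat.findGreatest P F.card) := Nat.findGreatest_spec hP0le hP0
    obtain ⟨k, u, hu, hcard⟩ := hfs
    refine ⟨k, u, hu, ?_⟩
    intro n v hv
    rw [hcard]
    exact Nat.le_findGreatest (hNbcard n v) ⟨n, v, hv, rfl⟩
  -- neighbours of v ++ u
  have hnb : ∀ m, ∀ v ∈ W B m, ∀ s ∈ W B (m + k), zz R (v ++ u) - zz R s ∈ F → ∃ u', s = v ++ u' := by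
    intro m v hv s hs hsF
    have hvu : v ++ u ∈ W B (m + k) := by
      rw [mem_W] at hv hu ⊢
      refine ⟨by simp [hv.1, hu.1], ?_⟩
      intro c hc
      rcases List.mem_append.1 hc with h | h
      · exact hv.2 c h
      · exact hu.2 c h
    have hsub : (Nb k u).image (fun u' => v ++ u') ⊆ Nb (m + k) (v ++ u) := by
      intro x hx
      obtain ⟨u', hu', rfl⟩ := Finset.mem_image.1 hx
      have hu'' := Finset.mem_filter.1 hu'
      refine Finset.mem_filter.2 ⟨?_, ?_⟩
      · have h1 := hu''.1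
        rw [mem_W] at hv h1 ⊢
        refine ⟨by simp [hv.1, h1.1], ?_⟩
        intro c hc
        rcases List.mem_append.1 hc with h | h
        · exact hv.2 c h
        · exact h1.2 c h
      · have h1 := ((mem_W B k u).1 hu).1
        have h2 := ((mem_W B k u').1 hu''.1).1
        rw [zz_append, zz_append, h1, h2]
        have : (R ^ k) *ᵥ zz R v + zz R u - ((R ^ k) *ᵥ zz R v + zz R u') = zz R u - zz R u' := by
          abel
        rw [this]
        exact hu''.2
    have hcard : (Nb (m + k) (v ++ u)).card ≤ ((Nb k u).image (fun u' => v ++ u')).card := by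
      rw [Finset.card_image_of_injective _ (fun x y h => List.append_cancel_left h)]
      exact humax _ _ hvu
    have heq := Finset.eq_of_subset_of_card_le hsub hcard
    have hsmem : s ∈ Nb (m + k) (v ++ u) := Finset.mem_filter.2 ⟨hs, hsF⟩
    rw [← heq] at hsmem
    obtain ⟨u', -, h⟩ := Finset.mem_image.1 hsmem
    exact ⟨u', h.symm⟩
  set O : Set (Fin d → ℝ) := ph R b '' T ∩ ph R b' '' T with hO
  have hOm : MeasurableSet O :=
    ((hT.image (continuous_ph R b)).isClosed.inter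
      (hT.image (continuous_ph R b')).isClosed).measurableSet
  -- cylinders ending with u miss the overlap
  have hmiss : ∀ m, ∀ v ∈ W B (m + 1), μ.real (tw R (v ++ u) ⁻¹' O) = 0 := by
    intro m v hv
    rw [measureReal_eq_zero_iff (measure_ne_top _ _)]
    refine measure_mono_null ?_ hsupp
    intro x hx hxT
    have hvu : ∃ v₁ v', v = v₁ :: v' := by
      have := ((mem_W B (m + 1) v).1 hv).1
      cases v with
      | nil => simp at this
      | cons a l => exact ⟨a, l, rfl⟩
    obtain ⟨v₁, v', hv₁⟩ := hvu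
    have main : ∀ c ∈ B, tw R (v ++ u) x ∈ ph R c '' T → c = v₁ := by
      intro c hc hxc
      obtain ⟨t, ht, hxt⟩ := hxc
      obtain ⟨s, hs, t', ht', rfl⟩ := exists_word hTeq (m + k) t ht
      have hcs : c :: s ∈ W B (m + 1 + k) := by
        rw [mem_W] at hs ⊢
        refine ⟨by simp [hs.1]; ring, ?_⟩
        intro a ha
        rcases List.mem_cons.1 ha with rfl | ha
        · exact hc
        · exact hs.2 a ha
      have h1 : tw R (c :: s) t' = tw R (v ++ u) x := hxt
      have hlen1 : (c :: s).length = m + 1 + k := ((mem_W B _ _).1 hcs).1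
      have hlen2 : (v ++ u).length = m + 1 + k := by
        rw [List.length_append, ((mem_W B _ _).1 hv).1, ((mem_W B _ _).1 hu).1]
      rw [tw_eq hdet, tw_eq hdet, hlen1, hlen2] at h1
      have h2 := An_inj hdet _ _ _ h1
      have h3 : cst (zz R (v ++ u) - zz R (c :: s)) = t' - x := by
        rw [cst_sub]
        have : cst (zz R (v ++ u)) = (t' + cst (zz R (c :: s))) - x := by
          rw [h2]
          abel
        rw [this]
        abel
      obtain ⟨u', hu'⟩ := hnb (m + 1) v hv (c :: s) hcs (hFmem t' ht' x hxT _ h3)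
      rw [hv₁] at hu'
      simp only [List.cons_append, List.cons.injEq] at hu'
      exact hu'.1
    have hx1 : tw R (v ++ u) x ∈ ph R b '' T := hx.1
    have hx2 : tw R (v ++ u) x ∈ ph R b' '' T := hx.2
    exact hbb ((main b hb hx1).trans (main b' hb' hx2).symm)
  have hBne : B.Nonempty := ⟨b, hb⟩
  set N : ℝ := ((B.card : ℝ)⁻¹) ^ k with hN
  have hcard1 : (1 : ℝ) ≤ B.card := by exact_mod_cast hBne.card_pos
  have hN0 : 0 < N := pow_pos (inv_pos.2 (by linarith)) _
  have hN1 : N ≤ 1 := by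
    rw [hN]
    exact pow_le_one₀ (inv_nonneg.2 (Nat.cast_nonneg _)) (inv_le_one_of_one_le₀ hcard1)
  have hbound : ∀ j : ℕ, ∀ m, ∀ v ∈ W B (m + 1), μ.real (tw R v ⁻¹' O) ≤ (1 - N) ^ j := by
    intro j
    induction j with
    | zero =>
      intro m v _
      rw [pow_zero]
      exact measureReal_le_one
    | succ j ih =>
      intro m v hv
      rw [meas_words hInv k _ (measurable_tw R v hOm), ← Finset.add_sum_erase _ _ hu]
      have h0 : μ.real (tw R u ⁻¹' (tw R v ⁻¹' O)) = 0 := by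
        have := hmiss m v hv
        have e : tw R (v ++ u) ⁻¹' O = tw R u ⁻¹' (tw R v ⁻¹' O) := by
          ext x
          simp only [mem_preimage, tw_append]
        rwa [e] at this
      have h1 : ∑ u' ∈ (W B k).erase u, μ.real (tw R u' ⁻¹' (tw R v ⁻¹' O))
          ≤ ∑ u' ∈ (W B k).erase u, (1 - N) ^ j := by
        refine Finset.sum_le_sum fun u' hu' => ?_
        have e : tw R (v ++ u') ⁻¹' O = tw R u' ⁻¹' (tw R v ⁻¹' O) := by
          ext x
          simp only [mem_preimage, tw_append]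
        rw [← e]
        refine ih (m + k) (v ++ u') ?_
        have h2 := (Finset.mem_erase.1 hu').2
        rw [mem_W] at hv h2 ⊢
        refine ⟨by rw [List.length_append, hv.1, h2.1]; ring, ?_⟩
        intro c hc
        rcases List.mem_append.1 hc with h | h
        · exact hv.2 c h
        · exact h2.2 c h
      rw [h0, zero_add]
      rw [Finset.sum_const, Finset.card_erase_of_mem hu, card_W, nsmul_eq_mul] at h1
      have hpc : 1 ≤ B.card ^ k := Nat.one_le_pow _ _ hBne.card_pos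
      rw [Nat.cast_sub hpc, Nat.cast_pow, Nat.cast_one] at h1
      have hNN : N * (B.card : ℝ) ^ k = 1 := pow_inv_card hBne k
      calc N * ∑ u' ∈ (W B k).erase u, μ.real (tw R u' ⁻¹' (tw R v ⁻¹' O))
          ≤ N * (((B.card : ℝ) ^ k - 1) * (1 - N) ^ j) := mul_le_mul_of_nonneg_left h1 hN0.le
        _ = (N * (B.card : ℝ) ^ k - N) * (1 - N) ^ j := by ring
        _ = (1 - N) ^ (j + 1) := by rw [hNN]; ring
  have hzero : ∀ m, ∀ v ∈ W B (m + 1), μ.real (tw R v ⁻¹' O) = 0 := by
    intro m v hv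
    have hlim : Tendsto (fun j : ℕ => (1 - N) ^ j) atTop (𝓝 0) :=
      tendsto_pow_atTop_nhds_zero_of_lt_one (by linarith) (by linarith)
    have h1 : μ.real (tw R v ⁻¹' O) ≤ 0 := ge_of_tendsto' hlim fun j => hbound j m v hv
    exact le_antisymm h1 measureReal_nonneg
  have hfin : μ.real O = 0 := by
    rw [meas_words hInv 1 O hOm, Finset.sum_eq_zero (fun v hv => hzero 0 v hv), mul_zero]
  exact (measureReal_eq_zero_iff (measure_ne_top _ _)).1 hfin

end Pool.Agent.V1179.Spec
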