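import Mathlib

open MeasureTheory Set
open scoped ENNReal Real

noncomputable section
namespace Pool.Agent.V1179.Spec

variable {d : ℕ}

/-- The exponential with frequency `l`. -/
def ex (l x : Fin d → ℝ) : ℂ := Complex.exp (2 * Real.pi * Complex.I * ((∑ i, l i * x i : ℝ) : ℂ))

lemma ex_eq (l x : Fin d → ℝ) :
    ex l x = Complex.exp (((2 * Real.pi * ∑ i, l i * x i : ℝ) : ℂ) * Complex.I) := by
  rw [ex]
  congr 1
  push_cast
  ring

lemma norm_ex (l x : Fin d → ℝ) : ‖ex l x‖ = 1 := by
  rw [ex_eq, Complex.norm_exp_ofReal_mul_I]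

lemma continuous_ex (l : Fin d → ℝ) : Continuous (ex l) := by
  unfold ex
  fun_prop

lemma ex_add (l x a : Fin d → ℝ) : ex l (x + a) = ex l x * ex l a := by
  rw [ex, ex, ex, ← Complex.exp_add]
  congr 1
  rw [← mul_add]
  congr 1
  simp only [Pi.add_apply, mul_add, Finset.sum_add_distrib]
  push_cast
  ring

/-- **Uniformity of spectral measures**: no part of the measure can be translated into
at most half of another part. -/
theorem uniformity (μ : Measure (Fin d → ℝ)) [IsProbabilityMeasure μ]
    (Λ : Set (Fin d → ℝ)) (e : Λ → Lp ℂ 2 μ)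
    (he : ∀ l : Λ, (e l : (Fin d → ℝ) → ℂ) =ᵐ[μ] fun x => ex (l : Fin d → ℝ) x)
    (ho : Orthonormal ℂ e)
    (hs : (Submodule.span ℂ (Set.range e)).topologicalClosure = ⊤)
    (U : Set (Fin d → ℝ)) (hU : MeasurableSet U) (a : Fin d → ℝ)
    (hν : ∀ s, MeasurableSet s → 2 * μ (U ∩ (fun x => x + a) ⁻¹' s) ≤ μ s) : μ U = 0 := by
  have hma : Measurable (fun x : Fin d → ℝ => x + a) := measurable_id.add_const a
  set ν : Measure (Fin d → ℝ) := (2 : ℝ≥0∞) • (μ.restrict U).map (fun x => x + a) with hνdef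
  have hνs : ∀ s, MeasurableSet s → ν s = 2 * μ (U ∩ (fun x => x + a) ⁻¹' s) := by
    intro s hs'
    rw [hνdef, Measure.smul_apply, Measure.map_apply hma hs', Measure.restrict_apply (hma hs'),
      smul_eq_mul, inter_comm]
  have hle : ν ≤ μ := by
    rw [Measure.le_iff]
    intro s hs'
    rw [hνs s hs']
    exact hν s hs'
  have hac : ν ≪ μ := hle.absolutelyContinuous
  have hfin : IsFiniteMeasure ν := isFiniteMeasure_of_le μ hle
  have hleb : ν.HaveLebesgueDecomposition μ := Measure.haveLebesgueDecomposition_of_sigmaFinite ν μ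
  set h : (Fin d → ℝ) → ℝ := fun x => (ν.rnDeriv μ x).toReal with hh
  have hmeas : Measurable h := (Measure.measurable_rnDeriv ν μ).ennreal_toReal
  have h0 : ∀ x, 0 ≤ h x := fun x => ENNReal.toReal_nonneg
  have h1 : ∀ᵐ x ∂μ, h x ≤ 1 := by
    filter_upwards [Measure.rnDeriv_le_one_of_le hle] with x hx
    have := ENNReal.toReal_mono (by norm_num) hx
    simpa using this
  -- the two functions
  have hF : MemLp (fun x => (h x : ℂ)) 2 μ := by
    refine MemLp.of_bound ?_ 1 ?_
    · exact (Complex.measurable_ofReal.comp hmeas).aestronglyMeasurable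
    · filter_upwards [h1] with x hx
      rw [Complex.norm_real, Real.norm_of_nonneg (h0 x)]
      exact hx
  have hG : MemLp (U.indicator fun _ => (1 : ℂ)) 2 μ :=
    memLp_indicator_const 2 hU 1 (Or.inr (measure_ne_top μ U))
  set F : Lp ℂ 2 μ := hF.toLp _ with hFdef
  set G : Lp ℂ 2 μ := hG.toLp _ with hGdef
  let b : HilbertBasis Λ ℂ (Lp ℂ 2 μ) := HilbertBasis.mk ho (by rw [hs])
  have hb : ∀ l, b l = e l := fun l => by
    simp only [b, HilbertBasis.coe_mk]
  have inF : ∀ l : Λ, inner ℂ (b l) F = ∫ x, (starRingEnd ℂ) (ex l.1 x) * (h x : ℂ) ∂μ := by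
    intro l
    rw [hb, MeasureTheory.L2.inner_def]
    apply integral_congr_ae
    filter_upwards [he l, hF.coeFn_toLp] with x hx1 hx2
    rw [hx1, hx2, RCLike.inner_apply]
    ring
  have inG : ∀ l : Λ, inner ℂ (b l) G = ∫ x in U, (starRingEnd ℂ) (ex l.1 x) ∂μ := by
    intro l
    rw [hb, MeasureTheory.L2.inner_def, ← integral_indicator hU]
    apply integral_congr_ae
    filter_upwards [he l, hG.coeFn_toLp] with x hx1 hx2
    rw [hx1, hx2, RCLike.inner_apply]
    by_cases hxU : x ∈ U
    · simp [hxU]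
    · simp [hxU]
  have rel : ∀ l : Λ, inner ℂ (b l) F = (2 * (starRingEnd ℂ) (ex l.1 a)) * inner ℂ (b l) G := by
    intro l
    rw [inF, inG]
    have e1 : ∫ x, (starRingEnd ℂ) (ex l.1 x) * (h x : ℂ) ∂μ
        = ∫ x, (starRingEnd ℂ) (ex l.1 x) ∂ν := by
      have e0 := integral_rnDeriv_smul (f := fun x => (starRingEnd ℂ) (ex l.1 x)) hac
      rw [← e0]
      congr 1
      ext x
      rw [Complex.real_smul, mul_comm]
    rw [e1, hνdef, integral_smul_measure, integral_map hma.aemeasurable]
    · have e2 : ∀ x, (starRingEnd ℂ) (ex l.1 (x + a))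
          = (starRingEnd ℂ) (ex l.1 a) * (starRingEnd ℂ) (ex l.1 x) := by
        intro x
        rw [ex_add, map_mul, mul_comm]
      simp_rw [e2]
      rw [integral_const_mul]
      simp
      ring
    · apply Continuous.aestronglyMeasurable
      exact Complex.continuous_conj.comp (continuous_ex _)
  have parsF := b.tsum_inner_mul_inner F F
  have parsG := b.tsum_inner_mul_inner G G
  have hterm : ∀ l : Λ, inner ℂ F (b l) * inner ℂ (b l) F
      = 4 * (inner ℂ G (b l) * inner ℂ (b l) G) := by
    intro l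
    rw [← inner_conj_symm F (b l), ← inner_conj_symm G (b l), rel l, map_mul, map_mul]
    have e3 : (starRingEnd ℂ) ((starRingEnd ℂ) (ex l.1 a)) * (starRingEnd ℂ) (ex l.1 a) = 1 := by
      rw [Complex.conj_conj, Complex.mul_conj, Complex.normSq_eq_norm_sq, norm_ex]
      norm_num
    have e4 : (starRingEnd ℂ) (2 : ℂ) = 2 := by
      exact Complex.conj_ofNat 2
    rw [e4]
    linear_combination (4 * (starRingEnd ℂ) (inner ℂ (b l) G) * inner ℂ (b l) G) * e3
  have hFG : inner ℂ F F = 4 * inner ℂ G G := by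
    rw [← parsF, ← parsG, ← tsum_mul_left]
    congr 1
    ext l
    exact hterm l
  have nF : inner ℂ F F = ((∫ x, h x ^ 2 ∂μ : ℝ) : ℂ) := by
    rw [MeasureTheory.L2.inner_def, ← integral_complex_ofReal]
    apply integral_congr_ae
    filter_upwards [hF.coeFn_toLp] with x hx
    rw [hx, RCLike.inner_apply]
    simp
    ring
  have nG : inner ℂ G G = ((μ.real U : ℝ) : ℂ) := by
    rw [MeasureTheory.L2.inner_def]
    have : ∫ x, inner ℂ (G x) (G x) ∂μ = ∫ x, U.indicator (fun _ => (1 : ℂ)) x ∂μ := by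
      apply integral_congr_ae
      filter_upwards [hG.coeFn_toLp] with x hx
      rw [hx, RCLike.inner_apply]
      by_cases hxU : x ∈ U
      · simp [hxU]
      · simp [hxU]
    rw [this, integral_indicator hU]
    simp
  rw [nF, nG] at hFG
  have hreal : ∫ x, h x ^ 2 ∂μ = 4 * μ.real U := by exact_mod_cast hFG
  have hint : Integrable h μ := by
    refine Integrable.of_bound (C := 1) hmeas.aestronglyMeasurable ?_
    filter_upwards [h1] with x hx
    rw [Real.norm_of_nonneg (h0 x)]
    exact hx
  have hsq : ∫ x, h x ^ 2 ∂μ ≤ ∫ x, h x ∂μ := by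
    apply integral_mono_ae
    · refine Integrable.of_bound (C := 1) (hmeas.pow_const 2).aestronglyMeasurable ?_
      filter_upwards [h1] with x hx
      rw [Real.norm_of_nonneg (by positivity)]
      have := h0 x
      nlinarith
    · exact hint
    · filter_upwards [h1] with x hx
      have := h0 x
      show h x ^ 2 ≤ h x
      nlinarith
  have htot : ∫ x, h x ∂μ = 2 * μ.real U := by
    rw [hh, Measure.integral_toReal_rnDeriv hac, measureReal_def, hνs univ MeasurableSet.univ]
    simp [measureReal_def]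
  rw [hreal, htot] at hsq
  have h5 : μ.real U = 0 := by
    have : 0 ≤ μ.real U := measureReal_nonneg
    linarith
  exact (measureReal_eq_zero_iff (measure_ne_top μ U)).1 h5

end Pool.Agent.V1179.Spec
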