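import Pool.Agent.V1179.Spec.CE
import Pool.Agent.V1179.Spec.Geo

open MeasureTheory Set Matrix
open scoped ENNReal Real

noncomputable section
namespace Pool.Agent.V1179.Spec

/-- coordinates of the coding map -/
def xi (r : ℝ) (i : Fin 2) (ω : ℕ → B) : ℝ := ∑' k, ((ω k).1 i : ℝ) / r ^ (k + 1)

lemma digit_bound (b : B) (i : Fin 2) : |((b.1 i : ℤ) : ℝ)| ≤ 9 := by
  obtain ⟨b, hb⟩ := b
  simp only [B, Finset.mem_insert, Finset.mem_singleton] at hb
  rcases hb with rfl | rfl | rfl | rfl <;> fin_cases i <;> norm_num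

lemma xi_bound (r : ℝ) (hr : 3 ≤ r) (i : Fin 2) (k : ℕ) (ω : ℕ → B) :
    ‖((ω k).1 i : ℝ) / r ^ (k + 1)‖ ≤ 9 * (1 / 3 : ℝ) ^ k := by
  rw [norm_div, norm_pow, Real.norm_eq_abs, Real.norm_of_nonneg (by linarith)]
  have h1 : (3 : ℝ) ^ (k + 1) ≤ r ^ (k + 1) := by gcongr
  have h2 := digit_bound (ω k) i
  calc |((ω k).1 i : ℝ)| / r ^ (k + 1) ≤ 9 / 3 ^ (k + 1) := by gcongr
    _ ≤ 9 * (1 / 3 : ℝ) ^ k := by
      rw [one_div, inv_pow, ← div_eq_mul_inv]
      gcongr
      · norm_num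
      · exact Nat.le_succ k

lemma summable_bound : Summable (fun k : ℕ => 9 * (1 / 3 : ℝ) ^ k) :=
  (summable_geometric_of_lt_one (by norm_num) (by norm_num)).mul_left _

lemma summable_xi (r : ℝ) (hr : 3 ≤ r) (i : Fin 2) (ω : ℕ → B) :
    Summable (fun k => ((ω k).1 i : ℝ) / r ^ (k + 1)) :=
  Summable.of_norm_bounded summable_bound fun k => xi_bound r hr i k ω

lemma continuous_xi (r : ℝ) (hr : 3 ≤ r) (i : Fin 2) : Continuous (xi r i) := by
  refine continuous_tsum ?_ summable_bound (fun k ω => xi_bound r hr i k ω)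
  intro k
  have h1 : Continuous (fun b : B => (b.1 i : ℝ)) := continuous_of_discreteTopology
  exact (h1.comp (continuous_apply k)).div_const _

lemma xi_shift (r : ℝ) (hr : 3 ≤ r) (i : Fin 2) (ω : ℕ → B) :
    xi r i ω = (xi r i (fun k => ω (k + 1)) + ((ω 0).1 i : ℝ)) / r := by
  have hr0 : r ≠ 0 := by linarith
  rw [xi, (summable_xi r hr i ω).tsum_eq_zero_add, xi]
  have h1 : ∀ k : ℕ, ((ω (k + 1)).1 i : ℝ) / r ^ (k + 1 + 1)
      = (((ω (k + 1)).1 i : ℝ) / r ^ (k + 1)) * (1 / r) := by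
    intro k
    rw [pow_succ r (k + 1)]
    field_simp
  simp_rw [h1]
  rw [tsum_mul_right]
  simp
  ring

def code (ω : ℕ → B) : Fin 2 → ℝ := ![xi 4 0 ω, xi 3 1 ω]

lemma code_shift (ω : ℕ → B) : code ω = τ (ω 0).1 (code fun k => ω (k + 1)) := by
  rw [τ_eq]
  simp only [code]
  rw [xi_shift 4 (by norm_num) 0 ω, xi_shift 3 le_rfl 1 ω]
  simp

def TT : Set (Fin 2 → ℝ) := range code

lemma compact_TT : IsCompact TT := by
  apply isCompact_range
  refine continuous_pi fun i => ?_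
  fin_cases i
  · exact continuous_xi 4 (by norm_num) 0
  · exact continuous_xi 3 le_rfl 1

lemma nonempty_TT : TT.Nonempty :=
  ⟨_, mem_range_self (fun _ => ⟨![0, 0], by simp [B]⟩)⟩

lemma TT_eq : TT = ⋃ b ∈ B, τ b '' TT := by
  ext x
  constructor
  · rintro ⟨ω, rfl⟩
    exact mem_iUnion₂.2 ⟨(ω 0).1, (ω 0).2, _, ⟨_, rfl⟩, (code_shift ω).symm⟩
  · intro hx
    obtain ⟨b, hb, y, ⟨ω, rfl⟩, rfl⟩ := mem_iUnion₂.1 hx
    refine ⟨fun k => Nat.casesOn k ⟨b, hb⟩ ω, ?_⟩
    rw [code_shift]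
    rfl

lemma ph_eq_τ : ph R = τ := by
  funext b x
  rfl

lemma det_R : R.det ≠ 0 := by
  simp [R, Matrix.det_fin_two]

lemma simple_B : ∀ b ∈ B, ∀ b' ∈ B, b ≠ b' → ¬ ∃ v : Fin 2 → ℤ, R *ᵥ v = b - b' := by
  intro b hb b' hb' hne
  rintro ⟨v, hv⟩
  have h0 := congrFun hv 0
  have h1 := congrFun hv 1
  simp only [R, Matrix.mulVec, dotProduct, Fin.sum_univ_two, Matrix.of_apply,
    Matrix.cons_val_zero, Matrix.cons_val_one, Pi.sub_apply] at h0 h1
  simp only [B, Finset.mem_insert, Finset.mem_singleton] at hb hb'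
  rcases hb with rfl | rfl | rfl | rfl <;> rcases hb' with rfl | rfl | rfl | rfl <;>
    first
    | exact absurd rfl hne
    | (simp at h0 h1; omega)

lemma dist_R (n : ℕ) : ∀ w ∈ W B n, ∀ w' ∈ W B n, zz R w = zz R w' → w = w' := by
  induction n with
  | zero =>
    intro w hw w' hw' _
    rw [W, Finset.mem_singleton] at hw hw'
    rw [hw, hw']
  | succ n ih =>
    intro w hw w' hw' h
    rw [mem_W] at hw hw'
    rcases List.eq_nil_or_concat w with rfl | ⟨v, b, rfl⟩
    · simp at hw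
    rcases List.eq_nil_or_concat w' with rfl | ⟨v', b', rfl⟩
    · simp at hw'
    simp only [List.concat_eq_append] at hw hw' h ⊢
    have hb : b ∈ B := hw.2 b (by simp)
    have hb' : b' ∈ B := hw'.2 b' (by simp)
    rw [zz_append, zz_append] at h
    simp only [List.length_cons, List.length_nil, zero_add, pow_one, zz, pow_zero,
      Matrix.one_mulVec, add_zero] at h
    by_cases hbb : b' = b
    · subst hbb
      have h1 : R *ᵥ zz R v = R *ᵥ zz R v' := add_right_cancel h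
      have h2 : zz R v = zz R v' := by
        have h0 := congrFun h1 0
        have h3 := congrFun h1 1
        simp only [R, Matrix.mulVec, dotProduct, Fin.sum_univ_two, Matrix.of_apply,
          Matrix.cons_val_zero, Matrix.cons_val_one] at h0 h3
        ext i
        fin_cases i
        · simp at h0 ⊢
          exact h0
        · simp at h3 ⊢
          exact h3
      rw [ih v ((mem_W B n v).2 ⟨by simpa using hw.1, fun c hc => hw.2 c (by simp [hc])⟩)
        v' ((mem_W B n v').2 ⟨by simpa using hw'.1, fun c hc => hw'.2 c (by simp [hc])⟩) h2]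
    · exfalso
      refine simple_B b' hb' b hb hbb ⟨zz R v - zz R v', ?_⟩
      rw [Matrix.mulVec_sub, sub_eq_sub_iff_add_eq_add, h, add_comm]

end Pool.Agent.V1179.Spec
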