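import Mathlib

open Set Filter Topology Matrix MeasureTheory
open scoped ENNReal Real NNReal

noncomputable section
namespace Pool.Agent.V1179.Spec

variable {d : ℕ}

/-- The inverse of the expanding matrix. -/
def AA (R : Matrix (Fin d) (Fin d) ℤ) : Matrix (Fin d) (Fin d) ℝ :=
  (R.map (Int.castRingHom ℝ))⁻¹

def MM (R : Matrix (Fin d) (Fin d) ℤ) : Matrix (Fin d) (Fin d) ℝ :=
  R.map (Int.castRingHom ℝ)

def cst (b : Fin d → ℤ) : Fin d → ℝ := fun i => (b i : ℝ)

def ph (R : Matrix (Fin d) (Fin d) ℤ) (b : Fin d → ℤ) (x : Fin d → ℝ) : Fin d → ℝ :=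
  AA R *ᵥ (x + cst b)

/-- Words of length `n`. -/
def W (B : Finset (Fin d → ℤ)) : ℕ → Finset (List (Fin d → ℤ))
  | 0 => {[]}
  | n + 1 => (B ×ˢ W B n).image (fun p => p.1 :: p.2)

lemma mem_W (B : Finset (Fin d → ℤ)) (n : ℕ) (w : List (Fin d → ℤ)) :
    w ∈ W B n ↔ w.length = n ∧ ∀ b ∈ w, b ∈ B := by
  induction n generalizing w with
  | zero =>
    simp only [W, Finset.mem_singleton, List.length_eq_zero_iff]
    constructor
    · rintro rfl
      simp
    · exact fun h => h.1
  | succ n ih =>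
    simp only [W, Finset.mem_image, Finset.mem_product]
    constructor
    · rintro ⟨⟨b, w'⟩, ⟨hb, hw⟩, rfl⟩
      rw [ih] at hw
      refine ⟨by simp [hw.1], ?_⟩
      intro c hc
      rcases List.mem_cons.1 hc with rfl | hc
      · exact hb
      · exact hw.2 c hc
    · rintro ⟨h1, h2⟩
      cases w with
      | nil => simp at h1
      | cons b w' =>
        refine ⟨⟨b, w'⟩, ⟨h2 b (by simp), ?_⟩, rfl⟩
        rw [ih]
        exact ⟨by simpa using h1, fun c hc => h2 c (by simp [hc])⟩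

lemma sum_W (B : Finset (Fin d → ℤ)) (n : ℕ) (f : List (Fin d → ℤ) → ℝ) :
    ∑ w ∈ W B (n + 1), f w = ∑ b ∈ B, ∑ w ∈ W B n, f (b :: w) := by
  rw [W, Finset.sum_image, Finset.sum_product]
  rintro ⟨b, w⟩ - ⟨b', w'⟩ - h
  simp only [List.cons.injEq] at h
  exact Prod.ext h.1 h.2

lemma card_W (B : Finset (Fin d → ℤ)) (n : ℕ) : (W B n).card = B.card ^ n := by
  induction n with
  | zero => simp [W]
  | succ n ih =>
    rw [W, Finset.card_image_of_injective, Finset.card_product, ih, pow_succ, mul_comm]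
    rintro ⟨b, w⟩ ⟨b', w'⟩ h
    simp only [List.cons.injEq] at h
    exact Prod.ext h.1 h.2

/-- composition of the maps along a word -/
def tw (R : Matrix (Fin d) (Fin d) ℤ) : List (Fin d → ℤ) → (Fin d → ℝ) → (Fin d → ℝ)
  | [] => id
  | b :: w => fun x => ph R b (tw R w x)

def zz (R : Matrix (Fin d) (Fin d) ℤ) : List (Fin d → ℤ) → (Fin d → ℤ)
  | [] => 0
  | b :: w => (R ^ w.length) *ᵥ b + zz R w

lemma tw_append (R : Matrix (Fin d) (Fin d) ℤ) (v u : List (Fin d → ℤ)) (x : Fin d → ℝ) :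
    tw R (v ++ u) x = tw R v (tw R u x) := by
  induction v with
  | nil => rfl
  | cons b v ih => simp only [List.cons_append, tw, ih]

lemma zz_append (R : Matrix (Fin d) (Fin d) ℤ) (v u : List (Fin d → ℤ)) :
    zz R (v ++ u) = (R ^ u.length) *ᵥ zz R v + zz R u := by
  induction v with
  | nil => simp [zz]
  | cons b v ih =>
    simp only [List.cons_append, zz, ih, List.length_append]
    rw [Matrix.mulVec_add, Matrix.mulVec_mulVec, ← pow_add, add_comm u.length, add_assoc]

lemma cst_add (a b : Fin d → ℤ) : cst (a + b) = cst a + cst b := by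
  ext i; simp [cst]

lemma cst_sub (a b : Fin d → ℤ) : cst (a - b) = cst a - cst b := by
  ext i; simp [cst]

lemma cst_mulVec (R : Matrix (Fin d) (Fin d) ℤ) (n : ℕ) (b : Fin d → ℤ) :
    cst ((R ^ n) *ᵥ b) = (MM R ^ n) *ᵥ cst b := by
  have h1 : MM R ^ n = (R ^ n).map (Int.castRingHom ℝ) := by
    have := map_pow ((Int.castRingHom ℝ).mapMatrix (m := Fin d)) R n
    exact this.symm
  rw [h1]
  ext i
  simp [cst, Matrix.mulVec, dotProduct]

section
variable {R : Matrix (Fin d) (Fin d) ℤ} (hR : R.det ≠ 0)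
include hR

lemma MA : MM R * AA R = 1 := by
  apply Matrix.mul_nonsing_inv
  have h2 := (RingHom.map_det (Int.castRingHom ℝ) R)
  have h3 : (R.map (Int.castRingHom ℝ)).det = ((R.det : ℤ) : ℝ) := h2.symm
  rw [MM, h3, isUnit_iff_ne_zero]
  exact_mod_cast hR

lemma AM : AA R * MM R = 1 := by
  apply Matrix.nonsing_inv_mul
  have h2 := (RingHom.map_det (Int.castRingHom ℝ) R)
  have h3 : (R.map (Int.castRingHom ℝ)).det = ((R.det : ℤ) : ℝ) := h2.symm
  rw [h3, isUnit_iff_ne_zero]
  exact_mod_cast hR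

lemma AnMn (n : ℕ) : AA R ^ n * MM R ^ n = 1 := by
  induction n with
  | zero => simp
  | succ n ih =>
    rw [pow_succ, pow_succ', mul_assoc, ← mul_assoc (AA R), AM hR, one_mul, ih]

lemma MnAn (n : ℕ) : MM R ^ n * AA R ^ n = 1 := by
  induction n with
  | zero => simp
  | succ n ih =>
    rw [pow_succ, pow_succ', mul_assoc, ← mul_assoc (MM R), MA hR, one_mul, ih]

lemma An_inj (n : ℕ) (x y : Fin d → ℝ) (h : (AA R ^ n) *ᵥ x = (AA R ^ n) *ᵥ y) : x = y := by
  have := congrArg (fun z => (MM R ^ n) *ᵥ z) h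
  simpa [Matrix.mulVec_mulVec, MnAn hR n] using this

lemma tw_eq (w : List (Fin d → ℤ)) (x : Fin d → ℝ) :
    tw R w x = (AA R ^ w.length) *ᵥ (x + cst (zz R w)) := by
  induction w with
  | nil =>
    have : cst (0 : Fin d → ℤ) = 0 := by ext i; simp [cst]
    simp [tw, zz, this]
  | cons b w ih =>
    simp only [tw, zz, List.length_cons]
    rw [ph, ih, cst_add, cst_mulVec]
    have h1 : (x + (MM R ^ w.length *ᵥ cst b + cst (zz R w)))
        = (x + cst (zz R w)) + MM R ^ w.length *ᵥ cst b := by abel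
    rw [h1, Matrix.mulVec_add, Matrix.mulVec_add (AA R ^ (w.length + 1)), pow_succ',
      ← Matrix.mulVec_mulVec, Matrix.mulVec_mulVec (cst b), mul_assoc, AnMn hR, mul_one]

end

lemma measurable_ph (R : Matrix (Fin d) (Fin d) ℤ) (b : Fin d → ℤ) : Measurable (ph R b) := by
  unfold ph
  exact (Continuous.matrix_mulVec continuous_const (continuous_id.add continuous_const)).measurable

lemma continuous_ph (R : Matrix (Fin d) (Fin d) ℤ) (b : Fin d → ℤ) : Continuous (ph R b) := by
  unfold ph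
  exact (Continuous.matrix_mulVec continuous_const (continuous_id.add continuous_const))

lemma measurable_tw (R : Matrix (Fin d) (Fin d) ℤ) (w : List (Fin d → ℤ)) : Measurable (tw R w) := by
  induction w with
  | nil => exact measurable_id
  | cons b w ih => exact (measurable_ph R b).comp ih

/-- invariance at the level of sets -/
def Inv (R : Matrix (Fin d) (Fin d) ℤ) (B : Finset (Fin d → ℤ)) (μ : Measure (Fin d → ℝ)) : Prop :=
  ∀ s, MeasurableSet s → μ.real s = ((B.card : ℝ)⁻¹) * ∑ b ∈ B, μ.real (ph R b ⁻¹' s)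

lemma meas_words {R : Matrix (Fin d) (Fin d) ℤ} {B : Finset (Fin d → ℤ)}
    {μ : Measure (Fin d → ℝ)} (h : Inv R B μ) (n : ℕ) (s : Set (Fin d → ℝ)) (hs : MeasurableSet s) :
    μ.real s = ((B.card : ℝ)⁻¹) ^ n * ∑ w ∈ W B n, μ.real (tw R w ⁻¹' s) := by
  induction n generalizing s with
  | zero => simp [W, tw]
  | succ n ih =>
    rw [sum_W, h s hs, pow_succ', mul_assoc]
    congr 1
    rw [Finset.mul_sum]
    refine Finset.sum_congr rfl fun b _ => ?_
    rw [ih _ (measurable_ph R b hs)]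
    congr 1

end Pool.Agent.V1179.Spec
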